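import Mathlib

set_option autoImplicit false

namespace Pool.Agent.H948Q

open MeasureTheory Set

/-- The determinant of two plane vectors. -/
def det2 (p q : ℝ × ℝ) : ℝ := p.1 * q.2 - p.2 * q.1

lemma volume_std : volume {p : ℝ × ℝ | 0 ≤ p.1 ∧ 0 ≤ p.2 ∧ p.1 + p.2 ≤ 1} = ENNReal.ofReal (1/2) := by
  have h : {p : ℝ × ℝ | 0 ≤ p.1 ∧ 0 ≤ p.2 ∧ p.1 + p.2 ≤ 1} =
      {p : ℝ × ℝ | p.1 ∈ Icc (0:ℝ) 1 ∧ p.2 ∈ Icc (0:ℝ) (1 - p.1)} := by
    ext p; simp only [mem_setOf_eq, mem_Icc]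
    constructor
    · rintro ⟨h1, h2, h3⟩; exact ⟨⟨h1, by linarith⟩, h2, by linarith⟩
    · rintro ⟨⟨h1, h2⟩, h3, h4⟩; exact ⟨h1, h3, by linarith⟩
  rw [h]
  have hm : MeasurableSet {p : ℝ × ℝ | p.1 ∈ Icc (0:ℝ) 1 ∧ p.2 ∈ Icc (0:ℝ) (1 - p.1)} := by
    rw [← h]
    apply IsClosed.measurableSet
    apply IsClosed.inter
    · exact isClosed_le continuous_const continuous_fst
    apply IsClosed.inter
    · exact isClosed_le continuous_const continuous_snd
    · exact isClosed_le (continuous_fst.add continuous_snd) continuous_const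
  rw [Measure.volume_eq_prod, Measure.prod_apply hm]
  have hs : ∀ x : ℝ, volume (Prod.mk x ⁻¹' {p : ℝ × ℝ | p.1 ∈ Icc (0:ℝ) 1 ∧ p.2 ∈ Icc (0:ℝ) (1 - p.1)})
      = (Icc (0:ℝ) 1).indicator (fun x => ENNReal.ofReal (1 - x)) x := by
    intro x
    by_cases hx : x ∈ Icc (0:ℝ) 1
    · rw [indicator_of_mem hx]
      have : (Prod.mk x ⁻¹' {p : ℝ × ℝ | p.1 ∈ Icc (0:ℝ) 1 ∧ p.2 ∈ Icc (0:ℝ) (1 - p.1)}) = Icc 0 (1 - x) := by
        ext y; simp only [mem_preimage, mem_setOf_eq]; exact ⟨fun h => h.2, fun h => ⟨hx, h⟩⟩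
      rw [this, Real.volume_Icc, sub_zero]
    · rw [indicator_of_notMem hx]
      have : (Prod.mk x ⁻¹' {p : ℝ × ℝ | p.1 ∈ Icc (0:ℝ) 1 ∧ p.2 ∈ Icc (0:ℝ) (1 - p.1)}) = ∅ := by
        ext y; simp only [mem_preimage, mem_setOf_eq, mem_empty_iff_false, iff_false]
        exact fun h => hx h.1
      rw [this, measure_empty]
  simp_rw [hs]
  rw [lintegral_indicator measurableSet_Icc, ← ofReal_integral_eq_lintegral_ofReal]
  · congr 1
    rw [integral_Icc_eq_integral_Ioc, ← intervalIntegral.integral_of_le zero_le_one]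
    rw [intervalIntegral.integral_sub (by simp) (by simp)]
    simp
    norm_num
  · apply Continuous.integrableOn_Icc; fun_prop
  · rw [Filter.EventuallyLE, ae_restrict_iff' measurableSet_Icc]
    refine Filter.Eventually.of_forall (fun x hx => ?_)
    simp only [Pi.zero_apply]; linarith [hx.2]

/-- The linear map `(x, y) ↦ x u + y v`. -/
noncomputable def lin (u v : ℝ × ℝ) : (ℝ × ℝ) →ₗ[ℝ] (ℝ × ℝ) :=
  Matrix.toLin (Module.Basis.finTwoProd ℝ) (Module.Basis.finTwoProd ℝ) !![u.1, v.1; u.2, v.2]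

lemma lin_apply (u v p : ℝ × ℝ) : lin u v p = p.1 • u + p.2 • v := by
  unfold lin
  rw [Matrix.toLin_finTwoProd_apply]
  ext <;> simp <;> ring

lemma det_lin (u v : ℝ × ℝ) : LinearMap.det (lin u v) = det2 u v := by
  unfold lin
  rw [LinearMap.det_toLin, Matrix.det_fin_two]
  simp [det2]; ring

/-- The affine map `(x, y) ↦ c + x u + y v`. -/
noncomputable def aff (c u v : ℝ × ℝ) (p : ℝ × ℝ) : ℝ × ℝ := c + (p.1 • u + p.2 • v)

lemma volume_aff (c u v : ℝ × ℝ) (X : Set (ℝ × ℝ)) :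
    volume (aff c u v '' X) = ENNReal.ofReal |det2 u v| * volume X := by
  have h : aff c u v '' X = (fun q => c + q) '' (lin u v '' X) := by
    rw [image_image]
    apply image_congr
    intro p _
    simp [aff, lin_apply]
  rw [h, Set.image_add_left, measure_preimage_add, Measure.addHaar_image_linearMap, det_lin]

lemma aff_isAffine (c u v : ℝ × ℝ) : ∃ f : (ℝ × ℝ) →ᵃ[ℝ] (ℝ × ℝ), ∀ p, f p = aff c u v p := by
  refine ⟨(lin u v).toAffineMap + AffineMap.const ℝ (ℝ × ℝ) c, fun p => ?_⟩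
  simp [aff, lin_apply, add_comm]

lemma image_hull (c u v : ℝ × ℝ) (X : Set (ℝ × ℝ)) :
    aff c u v '' convexHull ℝ X = convexHull ℝ (aff c u v '' X) := by
  obtain ⟨f, hf⟩ := aff_isAffine c u v
  have : aff c u v = f := by ext p <;> simp [hf]
  rw [this, f.image_convexHull]

lemma hull_std : convexHull ℝ {((0:ℝ),(0:ℝ)), (1,0), (0,1)} =
    {p : ℝ × ℝ | 0 ≤ p.1 ∧ 0 ≤ p.2 ∧ p.1 + p.2 ≤ 1} := by
  apply subset_antisymm
  · apply convexHull_min
    · intro p hp
      simp only [mem_insert_iff, mem_singleton_iff] at hp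
      rcases hp with rfl | rfl | rfl <;> norm_num
    · intro p hp q hq a b ha hb hab
      simp only [mem_setOf_eq, Prod.fst_add, Prod.smul_fst, smul_eq_mul, Prod.snd_add, Prod.smul_snd] at *
      obtain ⟨h1, h2, h3⟩ := hp
      obtain ⟨h4, h5, h6⟩ := hq
      refine ⟨by positivity, by positivity, ?_⟩
      nlinarith
  · rintro ⟨x, y⟩ ⟨h1, h2, h3⟩
    simp only at h1 h2 h3
    rw [convexHull_insert (by simp), convexHull_pair]
    simp only [convexJoin_singleton_left, mem_iUnion]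
    by_cases h : x + y = 0
    · refine ⟨(1,0), left_mem_segment _ _ _, ?_⟩
      have hx : x = 0 := by linarith
      have hy : y = 0 := by linarith
      subst hx; subst hy
      exact left_mem_segment _ _ _
    · have hpos : 0 < x + y := lt_of_le_of_ne (by linarith) (Ne.symm h)
      refine ⟨(x/(x+y), y/(x+y)), ?_, ?_⟩
      · refine ⟨x/(x+y), y/(x+y), by positivity, by positivity, by field_simp, ?_⟩
        ext <;> simp
      · refine ⟨1 - (x+y), x+y, by linarith, by linarith, by ring, ?_⟩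
        ext <;> simp <;> field_simp

lemma tri_image (a b c : ℝ × ℝ) : convexHull ℝ {a, b, c} =
    aff a (b - a) (c - a) '' {p : ℝ × ℝ | 0 ≤ p.1 ∧ 0 ≤ p.2 ∧ p.1 + p.2 ≤ 1} := by
  rw [← hull_std, image_hull]
  congr 1
  simp [image_insert_eq, aff]

lemma volume_tri (a b c : ℝ × ℝ) :
    volume (convexHull ℝ {a, b, c}) = ENNReal.ofReal (|det2 (b - a) (c - a)| / 2) := by
  rw [tri_image, volume_aff, volume_std, ← ENNReal.ofReal_mul (abs_nonneg _)]
  congr 1; ring

lemma mem_tri {a b c z : ℝ × ℝ} (h : 0 < det2 (b - a) (c - a))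
    (h1 : 0 ≤ det2 (b - a) (z - a)) (h2 : 0 ≤ det2 (c - b) (z - b)) (h3 : 0 ≤ det2 (a - c) (z - c)) :
    z ∈ convexHull ℝ {a, b, c} := by
  rw [tri_image]
  refine ⟨(det2 (a - c) (z - c) / det2 (b - a) (c - a), det2 (b - a) (z - a) / det2 (b - a) (c - a)), ?_, ?_⟩
  · refine ⟨by positivity, by positivity, ?_⟩
    simp only
    rw [← add_div, div_le_one h]
    have : det2 (b - a) (z - a) + det2 (c - b) (z - b) + det2 (a - c) (z - c) = det2 (b - a) (c - a) := by
      simp only [det2, Prod.fst_sub, Prod.snd_sub]; ring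
    linarith
  · have h' := h.ne'
    simp only [aff, det2, Prod.fst_sub, Prod.snd_sub] at h' ⊢
    ext
    · simp only [Prod.fst_add, Prod.smul_fst, Prod.fst_sub, smul_eq_mul]
      field_simp
      ring
    · simp only [Prod.snd_add, Prod.smul_snd, Prod.snd_sub, smul_eq_mul]
      field_simp
      ring

end Pool.Agent.H948Q
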