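import Pool.Agent.H948Q.Chord

set_option autoImplicit false

namespace Pool.Agent.H948Q

open MeasureTheory Set


lemma tri_le {a b c : ℝ × ℝ} (al be ga : ℝ) (ha : al * a.1 + be * a.2 + ga ≤ 0)
    (hb : al * b.1 + be * b.2 + ga ≤ 0) (hc : al * c.1 + be * c.2 + ga ≤ 0) :
    ∀ z ∈ convexHull ℝ {a, b, c}, al * z.1 + be * z.2 + ga ≤ 0 := by
  intro z hz
  have : z ∈ {z : ℝ × ℝ | al * z.1 + be * z.2 + ga ≤ 0} := by
    refine convexHull_min ?_ ?_ hz
    · intro x hx
      simp only [mem_insert_iff, mem_singleton_iff] at hx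
      rcases hx with rfl | rfl | rfl <;> assumption
    · intro p hp q hq s t hs ht hst
      simp only [mem_setOf_eq, Prod.fst_add, Prod.snd_add, Prod.smul_fst, Prod.smul_snd, smul_eq_mul] at *
      have e : al * (s * p.1 + t * q.1) + be * (s * p.2 + t * q.2) + ga
        = s * (al * p.1 + be * p.2 + ga) + t * (al * q.1 + be * q.2 + ga) := by
        have : t = 1 - s := by linarith
        subst this; ring
      rw [e]; nlinarith
  exact this

lemma tri_ge {a b c : ℝ × ℝ} (al be ga : ℝ) (ha : 0 ≤ al * a.1 + be * a.2 + ga)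
    (hb : 0 ≤ al * b.1 + be * b.2 + ga) (hc : 0 ≤ al * c.1 + be * c.2 + ga) :
    ∀ z ∈ convexHull ℝ {a, b, c}, 0 ≤ al * z.1 + be * z.2 + ga := by
  intro z hz
  have := tri_le (a := a) (b := b) (c := c) (-al) (-be) (-ga) (by linarith) (by linarith) (by linarith) z hz
  linarith

lemma tri_sub {K : Set (ℝ × ℝ)} (hconv : Convex ℝ K) {a b c : ℝ × ℝ} (ha : a ∈ K) (hb : b ∈ K)
    (hc : c ∈ K) : convexHull ℝ {a, b, c} ⊆ K := by
  apply convexHull_min _ hconv
  intro x hx
  simp only [mem_insert_iff, mem_singleton_iff] at hx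
  rcases hx with rfl | rfl | rfl <;> assumption

/-- The area of `K` is at least the area of an inscribed quadrilateral and four caps. -/
lemma caps {K : Set (ℝ × ℝ)} (hconv : Convex ℝ K)
    (hsq : ∀ z ∈ K, 0 ≤ z.1 ∧ z.1 ≤ 1 ∧ 0 ≤ z.2 ∧ z.2 ≤ 1) {s t : ℝ} (hs0 : 0 < s) (hs1 : s < 1)
    (ht0 : 0 < t) (ht1 : t < 1) (hA : ((0:ℝ), t) ∈ K) (hB : (s, (0:ℝ)) ∈ K) (hC : ((1:ℝ), t) ∈ K)
    (hD : (s, (1:ℝ)) ∈ K) {x1 y1 x2 y2 x3 y3 x4 y4 : ℝ} (h1 : (x1, y1) ∈ K) (h2 : (x2, y2) ∈ K)
    (h3 : (x3, y3) ∈ K) (h4 : (x4, y4) ∈ K)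
    (g1 : 0 ≤ s * t - t * x1 - s * y1) (g2 : 0 ≤ (1 - s) * t - t * (1 - x2) - (1 - s) * y2)
    (g3 : 0 ≤ (1 - s) * (1 - t) - (1 - t) * (1 - x3) - (1 - s) * (1 - y3))
    (g4 : 0 ≤ s * (1 - t) - (1 - t) * x4 - s * (1 - y4)) :
    ENNReal.ofReal ((1 + (s * t - t * x1 - s * y1) + ((1 - s) * t - t * (1 - x2) - (1 - s) * y2)
      + ((1 - s) * (1 - t) - (1 - t) * (1 - x3) - (1 - s) * (1 - y3))
      + (s * (1 - t) - (1 - t) * x4 - s * (1 - y4))) / 2) ≤ volume K := by
  have b1 := hsq _ h1
  have b2 := hsq _ h2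
  have b3 := hsq _ h3
  have b4 := hsq _ h4
  simp only at b1 b2 b3 b4
  obtain ⟨b11, b12, b13, b14⟩ := b1
  obtain ⟨b21, b22, b23, b24⟩ := b2
  obtain ⟨b31, b32, b33, b34⟩ := b3
  obtain ⟨b41, b42, b43, b44⟩ := b4
  have hs1' : 0 < 1 - s := by linarith
  have ht1' : 0 < 1 - t := by linarith
  have x3s : s ≤ x3 := by
    by_contra h; push Not at h
    nlinarith [mul_pos ht1' (sub_pos.mpr h), mul_nonneg hs1'.le (sub_nonneg.mpr b34)]
  have y3t : t ≤ y3 := by
    by_contra h; push Not at h
    nlinarith [mul_pos hs1' (sub_pos.mpr h), mul_nonneg ht1'.le (sub_nonneg.mpr b32)]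
  have x4s : x4 ≤ s := by
    by_contra h; push Not at h
    nlinarith [mul_pos ht1' (sub_pos.mpr h), mul_nonneg hs0.le (sub_nonneg.mpr b44)]
  have y4t : t ≤ y4 := by
    by_contra h; push Not at h
    nlinarith [mul_pos hs0 (sub_pos.mpr h), mul_nonneg ht1'.le b41]
  set X1 := convexHull ℝ {((0:ℝ), t), (s, (0:ℝ)), (x1, y1)} with hX1
  set X2 := convexHull ℝ {(s, (0:ℝ)), ((1:ℝ), t), (x2, y2)} with hX2
  set X3 := convexHull ℝ {((1:ℝ), t), (s, (1:ℝ)), (x3, y3)} with hX3
  set X4 := convexHull ℝ {(s, (1:ℝ)), ((0:ℝ), t), (x4, y4)} with hX4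
  set R1 := convexHull ℝ {((0:ℝ), t), (s, (0:ℝ)), ((1:ℝ), t)} with hR1
  set R2 := convexHull ℝ {((0:ℝ), t), ((1:ℝ), t), (s, (1:ℝ))} with hR2
  have kX1 : X1 ⊆ K := tri_sub hconv hA hB h1
  have kX2 : X2 ⊆ K := tri_sub hconv hB hC h2
  have kX3 : X3 ⊆ K := tri_sub hconv hC hD h3
  have kX4 : X4 ⊆ K := tri_sub hconv hD hA h4
  have kR1 : R1 ⊆ K := tri_sub hconv hA hB hC
  have kR2 : R2 ⊆ K := tri_sub hconv hA hC hD
  have s1 : volume X1 + volume (X2 ∪ (X3 ∪ (X4 ∪ (R1 ∪ R2)))) ≤ volume K := by
    refine volume_add_le t s (-(s * t)) (Or.inl ht0.ne') ?_ ?_ kX1 ?_ (measurableSet_tri _ _ _)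
    · apply tri_le <;> simp <;> nlinarith
    · rintro z (h | h | h | h | h)
      · exact tri_ge _ _ _ (by first | (simp; done) | (simp; nlinarith) | nlinarith) (by first | (simp; done) | (simp; nlinarith) | nlinarith) (by first | (simp; done) | (simp; nlinarith) | nlinarith) z h
      · exact tri_ge _ _ _ (by first | (simp; done) | (simp; nlinarith) | nlinarith) (by first | (simp; done) | (simp; nlinarith) | nlinarith) (by first | (simp; done) | (simp; nlinarith) | nlinarith) z h
      · exact tri_ge _ _ _ (by first | (simp; done) | (simp; nlinarith) | nlinarith) (by first | (simp; done) | (simp; nlinarith) | nlinarith) (by first | (simp; done) | (simp; nlinarith) | nlinarith) z h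
      · exact tri_ge _ _ _ (by first | (simp; done) | (simp; nlinarith) | nlinarith) (by first | (simp; done) | (simp; nlinarith) | nlinarith) (by first | (simp; done) | (simp; nlinarith) | nlinarith) z h
      · exact tri_ge _ _ _ (by first | (simp; done) | (simp; nlinarith) | nlinarith) (by first | (simp; done) | (simp; nlinarith) | nlinarith) (by first | (simp; done) | (simp; nlinarith) | nlinarith) z h
    · intro z hz
      rcases hz with h | h | h | h | h
      exacts [kX2 h, kX3 h, kX4 h, kR1 h, kR2 h]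
  have s2 : volume X2 + volume (X3 ∪ (X4 ∪ (R1 ∪ R2))) ≤ volume (X2 ∪ (X3 ∪ (X4 ∪ (R1 ∪ R2)))) := by
    refine volume_add_le (-t) (1 - s) (s * t) (Or.inr hs1'.ne') ?_ ?_ subset_union_left subset_union_right (measurableSet_tri _ _ _)
    · apply tri_le <;> simp <;> nlinarith
    · rintro z (h | h | h | h)
      · exact tri_ge _ _ _ (by first | (simp; done) | (simp; nlinarith) | nlinarith) (by first | (simp; done) | (simp; nlinarith) | nlinarith) (by simp; nlinarith [mul_nonneg hs1'.le (sub_nonneg.mpr y3t), mul_nonneg ht0.le (sub_nonneg.mpr b32)]) z h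
      · exact tri_ge _ _ _ (by first | (simp; done) | (simp; nlinarith) | nlinarith) (by first | (simp; done) | (simp; nlinarith) | nlinarith) (by simp; nlinarith [mul_nonneg hs1'.le (sub_nonneg.mpr y4t), mul_nonneg ht0.le (sub_nonneg.mpr x4s)]) z h
      · exact tri_ge _ _ _ (by first | (simp; done) | (simp; nlinarith) | nlinarith) (by first | (simp; done) | (simp; nlinarith) | nlinarith) (by first | (simp; done) | (simp; nlinarith) | nlinarith) z h
      · exact tri_ge _ _ _ (by first | (simp; done) | (simp; nlinarith) | nlinarith) (by first | (simp; done) | (simp; nlinarith) | nlinarith) (by first | (simp; done) | (simp; nlinarith) | nlinarith) z h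
  have s3 : volume X3 + volume (X4 ∪ (R1 ∪ R2)) ≤ volume (X3 ∪ (X4 ∪ (R1 ∪ R2))) := by
    refine volume_add_le (-(1 - t)) (-(1 - s)) ((1 - t) + (1 - s) - (1 - s) * (1 - t)) (Or.inl (neg_ne_zero.mpr ht1'.ne')) ?_ ?_ subset_union_left subset_union_right (measurableSet_tri _ _ _)
    · apply tri_le <;> simp <;> nlinarith
    · rintro z (h | h | h)
      · exact tri_ge _ _ _ (by first | (simp; done) | (simp; nlinarith) | nlinarith) (by first | (simp; done) | (simp; nlinarith) | nlinarith) (by first | (simp; done) | (simp; nlinarith) | nlinarith) z h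
      · exact tri_ge _ _ _ (by first | (simp; done) | (simp; nlinarith) | nlinarith) (by first | (simp; done) | (simp; nlinarith) | nlinarith) (by first | (simp; done) | (simp; nlinarith) | nlinarith) z h
      · exact tri_ge _ _ _ (by first | (simp; done) | (simp; nlinarith) | nlinarith) (by first | (simp; done) | (simp; nlinarith) | nlinarith) (by first | (simp; done) | (simp; nlinarith) | nlinarith) z h
  have s4 : volume X4 + volume (R1 ∪ R2) ≤ volume (X4 ∪ (R1 ∪ R2)) := by
    refine volume_add_le (1 - t) (-s) (s * t) (Or.inl ht1'.ne') ?_ ?_ subset_union_left subset_union_right (measurableSet_tri _ _ _)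
    · apply tri_le <;> simp <;> nlinarith
    · rintro z (h | h)
      · exact tri_ge _ _ _ (by first | (simp; done) | (simp; nlinarith) | nlinarith) (by first | (simp; done) | (simp; nlinarith) | nlinarith) (by first | (simp; done) | (simp; nlinarith) | nlinarith) z h
      · exact tri_ge _ _ _ (by first | (simp; done) | (simp; nlinarith) | nlinarith) (by first | (simp; done) | (simp; nlinarith) | nlinarith) (by first | (simp; done) | (simp; nlinarith) | nlinarith) z h
  have s5 : volume R1 + volume R2 ≤ volume (R1 ∪ R2) := by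
    refine volume_add_le 0 1 (-t) (Or.inr one_ne_zero) ?_ ?_ subset_union_left subset_union_right (measurableSet_tri _ _ _)
    · apply tri_le <;> simp <;> linarith
    · apply tri_ge <;> simp <;> linarith
  have v1 : volume X1 = ENNReal.ofReal ((s * t - t * x1 - s * y1) / 2) := by
    rw [hX1, volume_tri]; congr 2
    simp only [det2, Prod.fst_sub, Prod.snd_sub]
    rw [abs_of_nonpos (by nlinarith)]; ring
  have v2 : volume X2 = ENNReal.ofReal (((1 - s) * t - t * (1 - x2) - (1 - s) * y2) / 2) := by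
    rw [hX2, volume_tri]; congr 2
    simp only [det2, Prod.fst_sub, Prod.snd_sub]
    rw [abs_of_nonpos (by nlinarith)]; ring
  have v3 : volume X3 = ENNReal.ofReal (((1 - s) * (1 - t) - (1 - t) * (1 - x3) - (1 - s) * (1 - y3)) / 2) := by
    rw [hX3, volume_tri]; congr 2
    simp only [det2, Prod.fst_sub, Prod.snd_sub]
    rw [abs_of_nonpos (by nlinarith)]; ring
  have v4 : volume X4 = ENNReal.ofReal ((s * (1 - t) - (1 - t) * x4 - s * (1 - y4)) / 2) := by
    rw [hX4, volume_tri]; congr 2
    simp only [det2, Prod.fst_sub, Prod.snd_sub]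
    rw [abs_of_nonpos (by nlinarith)]; ring
  have v5 : volume R1 = ENNReal.ofReal (t / 2) := by
    rw [hR1, volume_tri]; congr 2
    simp only [det2, Prod.fst_sub, Prod.snd_sub]
    rw [abs_of_nonneg (by nlinarith)]; ring
  have v6 : volume R2 = ENNReal.ofReal ((1 - t) / 2) := by
    rw [hR2, volume_tri]; congr 2
    simp only [det2, Prod.fst_sub, Prod.snd_sub]
    rw [abs_of_nonneg (by nlinarith)]; ring
  have tot : volume X1 + (volume X2 + (volume X3 + (volume X4 + (volume R1 + volume R2)))) ≤ volume K := by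
    refine le_trans ?_ s1
    gcongr
    refine le_trans ?_ s2
    gcongr
    refine le_trans ?_ s3
    gcongr
    refine le_trans ?_ s4
    gcongr
  rw [v1, v2, v3, v4, v5, v6, ← ENNReal.ofReal_add (by linarith) (by linarith),
    ← ENNReal.ofReal_add (by linarith) (by linarith), ← ENNReal.ofReal_add (by linarith) (by linarith),
    ← ENNReal.ofReal_add (by linarith) (by linarith), ← ENNReal.ofReal_add (by linarith) (by linarith)] at tot
  refine le_trans (le_of_eq ?_) tot
  congr 1; ring

end Pool.Agent.H948Q
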