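import Pool.Agent.H948Q.Quad

set_option autoImplicit false

namespace Pool.Agent.H948Q

open MeasureTheory Set

/-- Every quadrilateral that contains `K` has area at least `q`. -/
def Good (q : ℝ) (K : Set (ℝ × ℝ)) : Prop :=
  ∀ a b c d : ℝ × ℝ, K ⊆ convexHull ℝ {a, b, c, d} →
    ENNReal.ofReal q ≤ volume (convexHull ℝ {a, b, c, d})

/-- inverse of `aff`. -/
noncomputable def iu (u v : ℝ × ℝ) : ℝ × ℝ := (v.2 / det2 u v, -u.2 / det2 u v)
noncomputable def iv (u v : ℝ × ℝ) : ℝ × ℝ := (-v.1 / det2 u v, u.1 / det2 u v)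
noncomputable def ic (c u v : ℝ × ℝ) : ℝ × ℝ := -(c.1 • iu u v + c.2 • iv u v)

lemma inv_aff {c u v : ℝ × ℝ} (h : det2 u v ≠ 0) (p : ℝ × ℝ) :
    aff (ic c u v) (iu u v) (iv u v) (aff c u v p) = p := by
  ext
  · simp only [aff, ic, iu, iv, Prod.fst_add, Prod.snd_add, Prod.fst_neg, Prod.smul_fst,
      Prod.smul_snd, smul_eq_mul]
    field_simp
    simp only [det2]; ring
  · simp only [aff, ic, iu, iv, Prod.fst_add, Prod.snd_add, Prod.snd_neg, Prod.smul_fst,
      Prod.smul_snd, smul_eq_mul]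
    field_simp
    simp only [det2]; ring

lemma aff_inv {c u v : ℝ × ℝ} (h : det2 u v ≠ 0) (p : ℝ × ℝ) :
    aff c u v (aff (ic c u v) (iu u v) (iv u v) p) = p := by
  ext
  · simp only [aff, ic, iu, iv, Prod.fst_add, Prod.snd_add, Prod.fst_neg, Prod.snd_neg, Prod.smul_fst,
      Prod.smul_snd, smul_eq_mul]
    field_simp
    simp only [det2]; ring
  · simp only [aff, ic, iu, iv, Prod.fst_add, Prod.snd_add, Prod.fst_neg, Prod.snd_neg, Prod.smul_fst,
      Prod.smul_snd, smul_eq_mul]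
    field_simp
    simp only [det2]; ring

lemma det_inv {u v : ℝ × ℝ} (h : det2 u v ≠ 0) : det2 (iu u v) (iv u v) = 1 / det2 u v := by
  have h' := h
  simp only [det2] at h'
  simp only [iu, iv, det2]
  field_simp

lemma continuous_aff (c u v : ℝ × ℝ) : Continuous (aff c u v) := by
  unfold aff; fun_prop

lemma convex_aff {c u v : ℝ × ℝ} {K : Set (ℝ × ℝ)} (h : Convex ℝ K) : Convex ℝ (aff c u v '' K) := by
  obtain ⟨f, hf⟩ := aff_isAffine c u v
  have : aff c u v = f := by ext p <;> simp [hf]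
  rw [this]; exact h.affine_image f

lemma good_image {q : ℝ} {K : Set (ℝ × ℝ)} (hK : Good q K) {c u v : ℝ × ℝ} (h : det2 u v ≠ 0) :
    Good (|det2 u v| * q) (aff c u v '' K) := by
  intro a b e d hsub
  set f := aff (ic c u v) (iu u v) (iv u v) with hf
  have h1 : K ⊆ convexHull ℝ {f a, f b, f e, f d} := by
    have h2 : f '' (aff c u v '' K) = K := by
      rw [image_image]; simp [hf, inv_aff h]
    rw [← h2]
    refine (image_mono hsub).trans ?_
    rw [hf, image_hull]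
    simp [image_insert_eq]
  have h3 := hK _ _ _ _ h1
  have h4 : convexHull ℝ {f a, f b, f e, f d} = f '' convexHull ℝ {a, b, e, d} := by
    rw [hf, image_hull]; simp [image_insert_eq]
  rw [h4, hf, volume_aff, det_inv h] at h3
  rw [ENNReal.ofReal_mul (abs_nonneg _)]
  calc ENNReal.ofReal |det2 u v| * ENNReal.ofReal q
      ≤ ENNReal.ofReal |det2 u v| * (ENNReal.ofReal |1 / det2 u v| * volume (convexHull ℝ {a, b, e, d})) := by
        gcongr
    _ = volume (convexHull ℝ {a, b, e, d}) := by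
        rw [← mul_assoc, ← ENNReal.ofReal_mul (abs_nonneg _), ← abs_mul, mul_one_div_cancel h]
        simp

/-- The middle of the left side of a circumscribed unit square of least area. -/
lemma mid_left {K : Set (ℝ × ℝ)} (hconv : Convex ℝ K) (hcomp : IsCompact K) (hgood : Good 1 K)
    (hsq : ∀ z ∈ K, 0 ≤ z.1 ∧ z.1 ≤ 1 ∧ 0 ≤ z.2 ∧ z.2 ≤ 1)
    (hb : ∃ z ∈ K, z.2 = 0) (ht : ∃ z ∈ K, z.2 = 1) : ((0:ℝ), (1/2:ℝ)) ∈ K := by
  by_contra hno
  obtain ⟨f, r, hf1, hf2⟩ := geometric_hahn_banach_point_closed hconv hcomp.isClosed hno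
  set al := f (1, 0) with hal
  set be := f (0, 1) with hbe
  have hf : ∀ z : ℝ × ℝ, f z = z.1 * al + z.2 * be := by
    intro z
    have : z = z.1 • ((1:ℝ), (0:ℝ)) + z.2 • ((0:ℝ), (1:ℝ)) := by ext <;> simp
    conv_lhs => rw [this]
    rw [map_add, map_smul, map_smul]; simp [hal, hbe]
  rw [hf] at hf1
  simp only [zero_mul, zero_add] at hf1
  obtain ⟨⟨b, b2⟩, hbK, hb2⟩ := hb
  obtain ⟨⟨d, d2⟩, hdK, hd2⟩ := ht
  simp only at hb2 hd2; subst hb2; subst hd2
  have k1 := hf2 _ hbK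
  have k2 := hf2 _ hdK
  rw [hf] at k1 k2
  simp only [zero_mul, add_zero, one_mul] at k1 k2
  have sb := hsq _ hbK
  have sd := hsq _ hdK
  simp only at sb sd
  have hpos : 0 < al := by
    by_contra hn
    push Not at hn
    nlinarith [sb.1, sd.1]
  set x0 := r / al with hx0
  set x1 := (r - be) / al with hx1
  have hb0 : x0 < b := by rw [hx0, div_lt_iff₀ hpos]; linarith
  have hd1 : x1 < d := by rw [hx1, div_lt_iff₀ hpos]; linarith
  have hsum : 0 < x0 + x1 := by
    rw [hx0, hx1, ← add_div]; apply div_pos _ hpos; linarith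
  have hz : ∀ z ∈ K, x0 + (x1 - x0) * z.2 < z.1 := by
    intro z hz
    have k3 := hf2 z hz
    rw [hf] at k3
    have e : x0 + (x1 - x0) * z.2 = (r - be * z.2) / al := by rw [hx0, hx1]; field_simp; ring
    rw [e, div_lt_iff₀ hpos]; linarith
  have hsub : K ⊆ convexHull ℝ {((x0:ℝ), (0:ℝ)), (1, 0), (1, 1), (x1, 1)} := by
    intro z hzK
    have s := hsq z hzK
    have k := hz z hzK
    apply mem_quad
    · simp [det2]; linarith
    · simp [det2]; linarith
    · simp [det2]; exact mul_nonneg (by linarith) s.2.2.1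
    · simp [det2]; linarith
    · simp [det2]; nlinarith [s.2.2.2]
    · simp [det2]; nlinarith
  have h1 := hgood _ _ _ _ hsub
  have h2 : volume (convexHull ℝ {((x0:ℝ), (0:ℝ)), (1, 0), (1, 1), (x1, 1)}) ≤ ENNReal.ofReal ((2 - x0 - x1) / 2) := by
    refine (volume_quad_le ?_ ?_ ?_ ?_).trans ?_
    · simp [det2]; linarith
    · simp [det2]; linarith
    · simp [det2]; linarith
    · simp [det2]; linarith
    · apply ENNReal.ofReal_le_ofReal; simp [det2]; linarith
  have h3 := h1.trans h2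
  rw [ENNReal.ofReal_le_ofReal_iff (by linarith)] at h3
  linarith

lemma mid_all {K : Set (ℝ × ℝ)} (hconv : Convex ℝ K) (hcomp : IsCompact K) (hgood : Good 1 K)
    (hsq : ∀ z ∈ K, 0 ≤ z.1 ∧ z.1 ≤ 1 ∧ 0 ≤ z.2 ∧ z.2 ≤ 1)
    (hb : ∃ z ∈ K, z.2 = 0) (ht : ∃ z ∈ K, z.2 = 1) (hl : ∃ z ∈ K, z.1 = 0) (hr : ∃ z ∈ K, z.1 = 1) :
    ((0:ℝ), (1/2:ℝ)) ∈ K ∧ ((1:ℝ), (1/2:ℝ)) ∈ K ∧ ((1/2:ℝ), (0:ℝ)) ∈ K ∧ ((1/2:ℝ), (1:ℝ)) ∈ K := by
  refine ⟨mid_left hconv hcomp hgood hsq hb ht, ?_, ?_, ?_⟩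
  · have h := mid_left (K := aff (1,0) (-1,0) (0,1) '' K) (convex_aff hconv)
      (hcomp.image (continuous_aff _ _ _))
      (by have := good_image hgood (c := (1,0)) (u := (-1,0)) (v := (0,1)) (by simp [det2])
          simpa [det2] using this)
      (by rintro _ ⟨z, hz, rfl⟩
          have := hsq z hz
          simp [aff]; exact ⟨this.2.1, this.1, this.2.2.1, this.2.2.2⟩)
      (by obtain ⟨z, hz, h⟩ := hb; exact ⟨_, ⟨z, hz, rfl⟩, by simp [aff, h]⟩)
      (by obtain ⟨z, hz, h⟩ := ht; exact ⟨_, ⟨z, hz, rfl⟩, by simp [aff, h]⟩)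
    obtain ⟨z, hz, h⟩ := h
    simp only [aff, Prod.ext_iff, Prod.fst_add, Prod.snd_add, Prod.smul_fst, Prod.smul_snd, smul_eq_mul] at h
    have : z = (1, 1/2) := by ext <;> simp <;> linarith [h.1, h.2]
    rwa [this] at hz
  · have h := mid_left (K := aff (0,0) (0,1) (1,0) '' K) (convex_aff hconv)
      (hcomp.image (continuous_aff _ _ _))
      (by have := good_image hgood (c := (0,0)) (u := (0,1)) (v := (1,0)) (by simp [det2])
          simpa [det2] using this)
      (by rintro _ ⟨z, hz, rfl⟩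
          have := hsq z hz
          simp [aff]; exact ⟨this.2.2.1, this.2.2.2, this.1, this.2.1⟩)
      (by obtain ⟨z, hz, h⟩ := hl; exact ⟨_, ⟨z, hz, rfl⟩, by simp [aff, h]⟩)
      (by obtain ⟨z, hz, h⟩ := hr; exact ⟨_, ⟨z, hz, rfl⟩, by simp [aff, h]⟩)
    obtain ⟨z, hz, h⟩ := h
    simp only [aff, Prod.ext_iff, Prod.fst_add, Prod.snd_add, Prod.smul_fst, Prod.smul_snd, smul_eq_mul] at h
    have : z = (1/2, 0) := by ext <;> simp <;> linarith [h.1, h.2]
    rwa [this] at hz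
  · have h := mid_left (K := aff (1,0) (0,1) (-1,0) '' K) (convex_aff hconv)
      (hcomp.image (continuous_aff _ _ _))
      (by have := good_image hgood (c := (1,0)) (u := (0,1)) (v := (-1,0)) (by simp [det2])
          simpa [det2] using this)
      (by rintro _ ⟨z, hz, rfl⟩
          have := hsq z hz
          simp [aff]; exact ⟨this.2.2.2, this.2.2.1, this.1, this.2.1⟩)
      (by obtain ⟨z, hz, h⟩ := hl; exact ⟨_, ⟨z, hz, rfl⟩, by simp [aff, h]⟩)
      (by obtain ⟨z, hz, h⟩ := hr; exact ⟨_, ⟨z, hz, rfl⟩, by simp [aff, h]⟩)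
    obtain ⟨z, hz, h⟩ := h
    simp only [aff, Prod.ext_iff, Prod.fst_add, Prod.snd_add, Prod.smul_fst, Prod.smul_snd, smul_eq_mul] at h
    have : z = (1/2, 1) := by ext <;> simp <;> linarith [h.1, h.2]
    rwa [this] at hz

end Pool.Agent.H948Q
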