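import Pool.Agent.H948Q.Limit

set_option autoImplicit false

namespace Pool.Agent.H948Q

open MeasureTheory Set Filter Topology

lemma tendsto_det2 {f g : ℕ → ℝ × ℝ} {a b : ℝ × ℝ} (hf : Tendsto f atTop (𝓝 a)) (hg : Tendsto g atTop (𝓝 b)) :
    Tendsto (fun n => det2 (f n) (g n)) atTop (𝓝 (det2 a b)) := by
  have hc : Continuous (fun p : (ℝ × ℝ) × (ℝ × ℝ) => det2 p.1 p.2) := by unfold det2; fun_prop
  exact (hc.tendsto (a, b)).comp (hf.prodMk_nhds hg)

lemma eventually_mem {L : Set (ℝ × ℝ)} {Kn : ℕ → Set (ℝ × ℝ)} (hconv : ∀ n, Convex ℝ (Kn n))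
    (G1 : ∀ z ∈ L, ∃ w : ℕ → ℝ × ℝ, (∀ n, w n ∈ Kn n) ∧ Tendsto w atTop (𝓝 z))
    {z : ℝ × ℝ} (hz : z ∈ interior L) : ∀ᶠ n in atTop, z ∈ Kn n := by
  rw [mem_interior_iff_mem_nhds, Metric.mem_nhds_iff] at hz
  obtain ⟨δ, hδ, hball⟩ := hz
  set d := δ / 2 with hd
  have hd0 : 0 < d := by positivity
  have mem : ∀ x y : ℝ, |x| ≤ d → |y| ≤ d → z + (x, y) ∈ L := by
    intro x y hx hy
    apply hball
    rw [Metric.mem_ball, dist_eq_norm]
    have : z + (x, y) - z = (x, y) := by abel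
    rw [this, Prod.norm_def]
    simp only [Real.norm_eq_abs]
    exact max_lt (by linarith) (by linarith)
  have ad : |d| = d := abs_of_pos hd0
  have adn : |(-d)| = d := by rw [abs_neg, ad]
  obtain ⟨w1, h1, t1⟩ := G1 _ (mem d 0 ad.le (by simp [hd0.le]))
  obtain ⟨w2, h2, t2⟩ := G1 _ (mem (-d) d adn.le ad.le)
  obtain ⟨w3, h3, t3⟩ := G1 _ (mem (-d) (-d) adn.le adn.le)
  have e0 := (tendsto_det2 (t2.sub t1) (t3.sub t1)).eventually (lt_mem_nhds (a := 0) (by
    simp only [det2, Prod.fst_sub, Prod.snd_sub, Prod.fst_add, Prod.snd_add]; nlinarith))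
  have e1 := (tendsto_det2 (t2.sub t1) ((tendsto_const_nhds (x := z)).sub t1)).eventually (lt_mem_nhds (a := 0) (by
    simp only [det2, Prod.fst_sub, Prod.snd_sub, Prod.fst_add, Prod.snd_add]; nlinarith))
  have e2 := (tendsto_det2 (t3.sub t2) ((tendsto_const_nhds (x := z)).sub t2)).eventually (lt_mem_nhds (a := 0) (by
    simp only [det2, Prod.fst_sub, Prod.snd_sub, Prod.fst_add, Prod.snd_add]; nlinarith))
  have e3 := (tendsto_det2 (t1.sub t3) ((tendsto_const_nhds (x := z)).sub t3)).eventually (lt_mem_nhds (a := 0) (by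
    simp only [det2, Prod.fst_sub, Prod.snd_sub, Prod.fst_add, Prod.snd_add]; nlinarith))
  filter_upwards [e0, e1, e2, e3] with n f0 f1 f2 f3
  exact tri_sub (hconv n) (h1 n) (h2 n) (h3 n) (mem_tri f0 f1.le f2.le f3.le)

lemma volume_interior {L : Set (ℝ × ℝ)} (hL : Convex ℝ L) : volume L = volume (interior L) := by
  apply le_antisymm _ (measure_mono interior_subset)
  calc volume L ≤ volume (interior L ∪ frontier L) := by
        apply measure_mono
        rw [← closure_eq_interior_union_frontier]; exact subset_closure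
    _ ≤ volume (interior L) + volume (frontier L) := measure_union_le _ _
    _ = volume (interior L) := by rw [hL.addHaar_frontier volume, add_zero]

lemma volume_limit {L : Set (ℝ × ℝ)} {Kn : ℕ → Set (ℝ × ℝ)} (hconv : ∀ n, Convex ℝ (Kn n)) (hL : Convex ℝ L)
    (G1 : ∀ z ∈ L, ∃ w : ℕ → ℝ × ℝ, (∀ n, w n ∈ Kn n) ∧ Tendsto w atTop (𝓝 z))
    {k : ℕ → ℝ} {κ : ℝ} (hk : ∀ n, volume (Kn n) ≤ ENNReal.ofReal (k n)) (hlim : Tendsto k atTop (𝓝 κ)) :
    volume L ≤ ENNReal.ofReal κ := by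
  rw [volume_interior hL]
  have h1 : interior L ⊆ ⋃ N : ℕ, ⋂ n ∈ Ici N, Kn n := by
    intro z hz
    obtain ⟨N, hN⟩ := eventually_atTop.mp (eventually_mem hconv G1 hz)
    exact mem_iUnion.mpr ⟨N, mem_iInter₂.mpr fun n hn => hN n hn⟩
  refine (measure_mono h1).trans ?_
  have hmono : Monotone (fun N : ℕ => ⋂ n ∈ Ici N, Kn n) := by
    intro a b hab z hz
    rw [mem_iInter₂] at hz ⊢
    exact fun n hn => hz n (le_trans hab hn)
  rw [hmono.measure_iUnion]
  apply iSup_le
  intro N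
  have h2 : Tendsto (fun n => ENNReal.ofReal (k n)) atTop (𝓝 (ENNReal.ofReal κ)) :=
    (ENNReal.continuous_ofReal.tendsto _).comp hlim
  apply ge_of_tendsto h2
  filter_upwards [eventually_ge_atTop N] with n hn
  exact (measure_mono (biInter_subset_of_mem (show n ∈ Ici N from hn))).trans (hk n)

lemma good_limit {L : Set (ℝ × ℝ)} {Kn : ℕ → Set (ℝ × ℝ)} {qn : ℕ → ℝ} {q : ℝ} (hq : Tendsto qn atTop (𝓝 q))
    (hint : (interior L).Nonempty)
    (G3 : ∀ U : Set (ℝ × ℝ), IsOpen U → L ⊆ U → ∀ᶠ n in atTop, Kn n ⊆ U)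
    (hgood : ∀ n, Good (qn n) (Kn n)) : Good q L := by
  intro a b c d hsub
  obtain ⟨x0, hx0⟩ := hint
  have hQc : Convex ℝ (convexHull ℝ {a, b, c, d}) := convex_convexHull _ _
  have hx : x0 ∈ interior (convexHull ℝ {a, b, c, d}) := interior_mono hsub hx0
  have hqn : Tendsto (fun n => ENNReal.ofReal (qn n)) atTop (𝓝 (ENNReal.ofReal q)) :=
    (ENNReal.continuous_ofReal.tendsto _).comp hq
  have key : ∀ t : ℝ, 1 < t → ENNReal.ofReal q ≤ ENNReal.ofReal (t ^ 2) * volume (convexHull ℝ {a, b, c, d}) := by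
    intro t ht
    have h1 := hQc.subset_interior_image_homothety_of_one_lt hx t ht
    have h2 := G3 _ isOpen_interior (hsub.trans h1)
    apply le_of_tendsto hqn
    filter_upwards [h2] with n hn
    have h3 : Kn n ⊆ AffineMap.homothety x0 t '' convexHull ℝ {a, b, c, d} := hn.trans interior_subset
    have h4 : AffineMap.homothety x0 t '' convexHull ℝ {a, b, c, d} =
        convexHull ℝ {AffineMap.homothety x0 t a, AffineMap.homothety x0 t b, AffineMap.homothety x0 t c,
          AffineMap.homothety x0 t d} := by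
      rw [AffineMap.image_convexHull]; simp [image_insert_eq]
    rw [h4] at h3
    have h5 := hgood n _ _ _ _ h3
    rw [← h4, Measure.addHaar_image_homothety] at h5
    have h6 : Module.finrank ℝ (ℝ × ℝ) = 2 := by simp
    rw [h6, abs_of_nonneg (by positivity)] at h5
    exact h5
  have hfin : volume (convexHull ℝ {a, b, c, d}) ≠ ⊤ := by
    have : IsCompact (convexHull ℝ {a, b, c, d}) := by
      apply Set.Finite.isCompact_convexHull; simp
    exact this.measure_lt_top.ne
  have h7 : Tendsto (fun t : ℝ => ENNReal.ofReal (t ^ 2) * volume (convexHull ℝ {a, b, c, d})) (𝓝[>] 1)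
      (𝓝 (ENNReal.ofReal ((1:ℝ) ^ 2) * volume (convexHull ℝ {a, b, c, d}))) := by
    apply ENNReal.Tendsto.mul_const _ (Or.inr hfin)
    apply (ENNReal.continuous_ofReal.tendsto _).comp
    apply Tendsto.mono_left _ nhdsWithin_le_nhds
    exact (continuous_pow 2).tendsto 1
  have h8 := ge_of_tendsto h7 (by filter_upwards [self_mem_nhdsWithin] with t ht using key t ht)
  simpa using h8

end Pool.Agent.H948Q
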