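import Pool.Agent.H948Q.Outer

set_option autoImplicit false

namespace Pool.Agent.H948Q

open MeasureTheory Set


/-- The final configuration: `K` lies in the unit square, contains the midpoints of its sides and a
smaller square with sides parallel to the axes. -/
structure Conf (r : ℝ) (K : Set (ℝ × ℝ)) (X Y : ℝ) : Prop where
  conv : Convex ℝ K
  sq : ∀ z ∈ K, 0 ≤ z.1 ∧ z.1 ≤ 1 ∧ 0 ≤ z.2 ∧ z.2 ≤ 1
  l : ((0:ℝ), (1/2:ℝ)) ∈ K
  r' : ((1:ℝ), (1/2:ℝ)) ∈ K
  b : ((1/2:ℝ), (0:ℝ)) ∈ K
  t : ((1/2:ℝ), (1:ℝ)) ∈ K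
  s1 : (X, Y) ∈ K
  s2 : (X + r, Y) ∈ K
  s3 : (X + r, Y + r) ∈ K
  s4 : (X, Y + r) ∈ K
  max : ∀ p1 ∈ K, ∀ p2 ∈ K, ∀ p3 ∈ K, ∀ p4 ∈ K, det2 (p3 - p1) (p4 - p2) ≤ 1
  vol : volume K ≤ ENNReal.ofReal r

lemma Conf.rot {r : ℝ} {K : Set (ℝ × ℝ)} {X Y : ℝ} (h : Conf r K X Y) :
    Conf r (aff (1, 0) (0, 1) (-1, 0) '' K) (1 - Y - r) X where
  conv := convex_aff h.conv
  sq := by
    rintro _ ⟨z, hz, rfl⟩
    have := h.sq z hz
    simp [aff]; exact ⟨this.2.2.2, this.2.2.1, this.1, this.2.1⟩
  l := ⟨_, h.t, by ext <;> simp [aff]⟩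
  r' := ⟨_, h.b, by ext <;> simp [aff]⟩
  b := ⟨_, h.l, by ext <;> simp [aff]; norm_num⟩
  t := ⟨_, h.r', by ext <;> simp [aff]; norm_num⟩
  s1 := ⟨_, h.s4, by ext <;> simp [aff]; ring⟩
  s2 := ⟨_, h.s1, by ext <;> simp [aff]; ring⟩
  s3 := ⟨_, h.s2, by ext <;> simp [aff]; ring⟩
  s4 := ⟨_, h.s3, by ext <;> simp [aff]; ring⟩
  max := by
    rintro _ ⟨p1, h1, rfl⟩ _ ⟨p2, h2, rfl⟩ _ ⟨p3, h3, rfl⟩ _ ⟨p4, h4, rfl⟩
    have := h.max p1 h1 p2 h2 p3 h3 p4 h4
    have e : det2 (aff (1, 0) (0, 1) (-1, 0) p3 - aff (1, 0) (0, 1) (-1, 0) p1)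
        (aff (1, 0) (0, 1) (-1, 0) p4 - aff (1, 0) (0, 1) (-1, 0) p2) = det2 (p3 - p1) (p4 - p2) := by
      simp [aff, det2]; ring
    rw [e]; exact this
  vol := by
    rw [volume_aff]; simpa [det2] using h.vol

lemma Conf.left {r : ℝ} (hr : r ^ 2 = 1 / 2) (hr0 : 0 < r) {K : Set (ℝ × ℝ)} {X Y : ℝ}
    (h : Conf r K X Y) : ∀ z ∈ K, (1/50) * (z.2 - 1/2) ≤ z.1 := by
  have r1 : r < 708/1000 := by nlinarith
  have r2 : 707/1000 < r := by nlinarith
  have hX : 1/100 < X := by
    have m1 := h.max _ h.r' _ h.t _ h.s4 _ h.s1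
    have m2 := h.max _ h.b _ h.r' _ h.s4 _ h.s1
    simp only [det2, Prod.fst_sub, Prod.snd_sub] at m1 m2
    nlinarith
  have sX := h.sq _ h.s1
  have s3 := h.sq _ h.s3
  simp only at sX s3
  intro z hz
  by_contra hlt
  push Not at hlt
  have sz := h.sq z hz
  have z1 : z.1 ≤ 1/100 := by linarith
  have z2 : 1/2 < z.2 := by linarith
  set E := convexHull ℝ {((0:ℝ), (1/2:ℝ)), (X, Y + r), z} with hE
  set L := convexHull ℝ {((0:ℝ), (1/2:ℝ)), (X, Y), (X, Y + r)} with hL
  set Rt := convexHull ℝ {(X + r, Y), (X + r, Y + r), ((1:ℝ), (1/2:ℝ))} with hRt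
  set Bt := convexHull ℝ {(X, Y), (X + r, Y), ((1/2:ℝ), (0:ℝ))} with hBt
  set Tp := convexHull ℝ {(X + r, Y + r), (X, Y + r), ((1/2:ℝ), (1:ℝ))} with hTp
  set S1 := convexHull ℝ {(X, Y), (X + r, Y), (X + r, Y + r)} with hS1
  set S2 := convexHull ℝ {(X, Y), (X + r, Y + r), (X, Y + r)} with hS2
  have kE : E ⊆ K := tri_sub h.conv h.l h.s4 hz
  have kL : L ⊆ K := tri_sub h.conv h.l h.s1 h.s4
  have kR : Rt ⊆ K := tri_sub h.conv h.s2 h.s3 h.r'
  have kB : Bt ⊆ K := tri_sub h.conv h.s1 h.s2 h.b
  have kT : Tp ⊆ K := tri_sub h.conv h.s3 h.s4 h.t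
  have k1 : S1 ⊆ K := tri_sub h.conv h.s1 h.s2 h.s3
  have k2 : S2 ⊆ K := tri_sub h.conv h.s1 h.s3 h.s4
  have a1 : volume (E ∪ L) + volume (Rt ∪ (Bt ∪ (Tp ∪ (S1 ∪ S2)))) ≤ volume K := by
    refine volume_add_le 1 0 (-X) (Or.inl one_ne_zero) ?_ ?_ (union_subset kE kL) ?_
      ((measurableSet_tri _ _ _).union (measurableSet_tri _ _ _))
    · rintro w (h' | h')
      · exact tri_le _ _ _ (by first | (simp; done) | (simp; nlinarith) | nlinarith) (by first | (simp; done) | (simp; nlinarith) | nlinarith) (by first | (simp; done) | (simp; nlinarith) | nlinarith) w h'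
      · exact tri_le _ _ _ (by first | (simp; done) | (simp; nlinarith) | nlinarith) (by first | (simp; done) | (simp; nlinarith) | nlinarith) (by first | (simp; done) | (simp; nlinarith) | nlinarith) w h'
    · rintro w (h' | h' | h' | h' | h')
      · exact tri_ge _ _ _ (by first | (simp; done) | (simp; nlinarith) | nlinarith) (by first | (simp; done) | (simp; nlinarith) | nlinarith) (by first | (simp; done) | (simp; nlinarith) | nlinarith) w h'
      · exact tri_ge _ _ _ (by first | (simp; done) | (simp; nlinarith) | nlinarith) (by first | (simp; done) | (simp; nlinarith) | nlinarith) (by first | (simp; done) | (simp; nlinarith) | nlinarith) w h'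
      · exact tri_ge _ _ _ (by first | (simp; done) | (simp; nlinarith) | nlinarith) (by first | (simp; done) | (simp; nlinarith) | nlinarith) (by first | (simp; done) | (simp; nlinarith) | nlinarith) w h'
      · exact tri_ge _ _ _ (by first | (simp; done) | (simp; nlinarith) | nlinarith) (by first | (simp; done) | (simp; nlinarith) | nlinarith) (by first | (simp; done) | (simp; nlinarith) | nlinarith) w h'
      · exact tri_ge _ _ _ (by first | (simp; done) | (simp; nlinarith) | nlinarith) (by first | (simp; done) | (simp; nlinarith) | nlinarith) (by first | (simp; done) | (simp; nlinarith) | nlinarith) w h'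
    · intro w hw
      rcases hw with h' | h' | h' | h' | h'
      exacts [kR h', kB h', kT h', k1 h', k2 h']
  have hdet : 0 < X * (z.2 - 1/2) - (Y + r - 1/2) * z.1 := by nlinarith
  have a2 : volume E + volume L ≤ volume (E ∪ L) := by
    refine volume_add_le (Y + r - 1/2) (-X) (X / 2) (Or.inr (by linarith)) ?_ ?_ subset_union_left
      subset_union_right (measurableSet_tri _ _ _)
    · exact tri_le _ _ _ (by simp; linarith) (by simp; nlinarith) (by simp; nlinarith)
    · exact tri_ge _ _ _ (by simp; linarith) (by simp; nlinarith) (by simp; nlinarith)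
  have a3 : volume Rt + volume (Bt ∪ (Tp ∪ (S1 ∪ S2))) ≤ volume (Rt ∪ (Bt ∪ (Tp ∪ (S1 ∪ S2)))) := by
    refine volume_add_le (-1) 0 (X + r) (Or.inl (by norm_num)) ?_ ?_ subset_union_left subset_union_right (measurableSet_tri _ _ _)
    · exact tri_le _ _ _ (by first | (simp; done) | (simp; nlinarith) | nlinarith) (by first | (simp; done) | (simp; nlinarith) | nlinarith) (by first | (simp; done) | (simp; nlinarith) | nlinarith)
    · rintro w (h' | h' | h' | h')
      · exact tri_ge _ _ _ (by first | (simp; done) | (simp; nlinarith) | nlinarith) (by first | (simp; done) | (simp; nlinarith) | nlinarith) (by first | (simp; done) | (simp; nlinarith) | nlinarith) w h'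
      · exact tri_ge _ _ _ (by first | (simp; done) | (simp; nlinarith) | nlinarith) (by first | (simp; done) | (simp; nlinarith) | nlinarith) (by first | (simp; done) | (simp; nlinarith) | nlinarith) w h'
      · exact tri_ge _ _ _ (by first | (simp; done) | (simp; nlinarith) | nlinarith) (by first | (simp; done) | (simp; nlinarith) | nlinarith) (by first | (simp; done) | (simp; nlinarith) | nlinarith) w h'
      · exact tri_ge _ _ _ (by first | (simp; done) | (simp; nlinarith) | nlinarith) (by first | (simp; done) | (simp; nlinarith) | nlinarith) (by first | (simp; done) | (simp; nlinarith) | nlinarith) w h'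
  have a4 : volume Bt + volume (Tp ∪ (S1 ∪ S2)) ≤ volume (Bt ∪ (Tp ∪ (S1 ∪ S2))) := by
    refine volume_add_le 0 1 (-Y) (Or.inr (by norm_num)) ?_ ?_ subset_union_left subset_union_right (measurableSet_tri _ _ _)
    · exact tri_le _ _ _ (by first | (simp; done) | (simp; nlinarith) | nlinarith) (by first | (simp; done) | (simp; nlinarith) | nlinarith) (by first | (simp; done) | (simp; nlinarith) | nlinarith)
    · rintro w (h' | h' | h')
      · exact tri_ge _ _ _ (by first | (simp; done) | (simp; nlinarith) | nlinarith) (by first | (simp; done) | (simp; nlinarith) | nlinarith) (by first | (simp; done) | (simp; nlinarith) | nlinarith) w h'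
      · exact tri_ge _ _ _ (by first | (simp; done) | (simp; nlinarith) | nlinarith) (by first | (simp; done) | (simp; nlinarith) | nlinarith) (by first | (simp; done) | (simp; nlinarith) | nlinarith) w h'
      · exact tri_ge _ _ _ (by first | (simp; done) | (simp; nlinarith) | nlinarith) (by first | (simp; done) | (simp; nlinarith) | nlinarith) (by first | (simp; done) | (simp; nlinarith) | nlinarith) w h'
  have a5 : volume Tp + volume (S1 ∪ S2) ≤ volume (Tp ∪ (S1 ∪ S2)) := by
    refine volume_add_le 0 (-1) (Y + r) (Or.inr (by norm_num)) ?_ ?_ subset_union_left subset_union_right (measurableSet_tri _ _ _)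
    · exact tri_le _ _ _ (by first | (simp; done) | (simp; nlinarith) | nlinarith) (by first | (simp; done) | (simp; nlinarith) | nlinarith) (by first | (simp; done) | (simp; nlinarith) | nlinarith)
    · rintro w (h' | h')
      · exact tri_ge _ _ _ (by first | (simp; done) | (simp; nlinarith) | nlinarith) (by first | (simp; done) | (simp; nlinarith) | nlinarith) (by first | (simp; done) | (simp; nlinarith) | nlinarith) w h'
      · exact tri_ge _ _ _ (by first | (simp; done) | (simp; nlinarith) | nlinarith) (by first | (simp; done) | (simp; nlinarith) | nlinarith) (by first | (simp; done) | (simp; nlinarith) | nlinarith) w h'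
  have a6 : volume S1 + volume S2 ≤ volume (S1 ∪ S2) := by
    refine volume_add_le (-1) 1 (X - Y) (Or.inr (by norm_num)) ?_ ?_ subset_union_left subset_union_right (measurableSet_tri _ _ _)
    · exact tri_le _ _ _ (by first | (simp; done) | (simp; nlinarith) | nlinarith) (by first | (simp; done) | (simp; nlinarith) | nlinarith) (by first | (simp; done) | (simp; nlinarith) | nlinarith)
    · exact tri_ge _ _ _ (by first | (simp; done) | (simp; nlinarith) | nlinarith) (by first | (simp; done) | (simp; nlinarith) | nlinarith) (by first | (simp; done) | (simp; nlinarith) | nlinarith)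
  have v0 : volume E = ENNReal.ofReal ((X * (z.2 - 1/2) - (Y + r - 1/2) * z.1) / 2) := by
    rw [hE, volume_tri]; congr 2
    simp only [det2, Prod.fst_sub, Prod.snd_sub]
    rw [abs_of_nonneg (by nlinarith)]; ring
  have v1 : volume L = ENNReal.ofReal (r * X / 2) := by
    rw [hL, volume_tri]; congr 2
    simp only [det2, Prod.fst_sub, Prod.snd_sub]
    have : (X - 0) * (Y + r - 1 / 2) - (Y - 1 / 2) * (X - 0) = r * X := by ring
    rw [this, abs_of_nonneg (by nlinarith)]
  have v2 : volume Rt = ENNReal.ofReal (r * (1 - X - r) / 2) := by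
    rw [hRt, volume_tri]; congr 2
    simp only [det2, Prod.fst_sub, Prod.snd_sub]
    have : (X + r - (X + r)) * (1 / 2 - Y) - (Y + r - Y) * (1 - (X + r)) = -(r * (1 - X - r)) := by ring
    rw [this, abs_neg, abs_of_nonneg (by nlinarith)]
  have v3 : volume Bt = ENNReal.ofReal (r * Y / 2) := by
    rw [hBt, volume_tri]; congr 2
    simp only [det2, Prod.fst_sub, Prod.snd_sub]
    have : (X + r - X) * (0 - Y) - (Y - Y) * (1 / 2 - X) = -(r * Y) := by ring
    rw [this, abs_neg, abs_of_nonneg (by nlinarith)]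
  have v4 : volume Tp = ENNReal.ofReal (r * (1 - Y - r) / 2) := by
    rw [hTp, volume_tri]; congr 2
    simp only [det2, Prod.fst_sub, Prod.snd_sub]
    have : (X - (X + r)) * (1 - (Y + r)) - (Y + r - (Y + r)) * (1 / 2 - (X + r)) = -(r * (1 - Y - r)) := by ring
    rw [this, abs_neg, abs_of_nonneg (by nlinarith)]
  have v5 : volume S1 = ENNReal.ofReal (1 / 4) := by
    rw [hS1, volume_tri]; congr 1
    simp only [det2, Prod.fst_sub, Prod.snd_sub]
    have : (X + r - X) * (Y + r - Y) - (Y - Y) * (X + r - X) = 1 / 2 := by nlinarith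
    rw [this, abs_of_nonneg (by norm_num)]; norm_num
  have v6 : volume S2 = ENNReal.ofReal (1 / 4) := by
    rw [hS2, volume_tri]; congr 1
    simp only [det2, Prod.fst_sub, Prod.snd_sub]
    have : (X + r - X) * (Y + r - Y) - (Y + r - Y) * (X - X) = 1 / 2 := by nlinarith
    rw [this, abs_of_nonneg (by norm_num)]; norm_num
  have tot : (volume E + volume L) + (volume Rt + (volume Bt + (volume Tp + (volume S1 + volume S2)))) ≤ volume K := by
    refine le_trans ?_ a1
    gcongr
    refine le_trans ?_ a3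
    gcongr
    refine le_trans ?_ a4
    gcongr
    refine le_trans ?_ a5
    gcongr
  have q1 : 0 ≤ r * X / 2 := by nlinarith
  have q2 : 0 ≤ r * (1 - X - r) / 2 := by nlinarith
  have q3 : 0 ≤ r * Y / 2 := by nlinarith
  have q4 : 0 ≤ r * (1 - Y - r) / 2 := by nlinarith
  rw [v0, v1, v2, v3, v4, v5, v6, ← ENNReal.ofReal_add (by linarith) (by linarith),
    ← ENNReal.ofReal_add (by linarith) (by linarith), ← ENNReal.ofReal_add (by linarith) (by linarith),
    ← ENNReal.ofReal_add (by linarith) (by linarith), ← ENNReal.ofReal_add (by linarith) (by linarith),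
    ← ENNReal.ofReal_add (by linarith) (by linarith)] at tot
  have := tot.trans h.vol
  rw [ENNReal.ofReal_le_ofReal_iff hr0.le] at this
  nlinarith

/-- The final configuration has a circumscribed square of area less than one. -/
lemma Conf.not_good {r : ℝ} (hr : r ^ 2 = 1 / 2) (hr0 : 0 < r) {K : Set (ℝ × ℝ)} {X Y : ℝ}
    (h : Conf r K X Y) (hgood : Good 1 K) : False := by
  have c1 := h.left hr hr0
  have c2 := h.rot.left hr hr0
  have c3 := h.rot.rot.left hr hr0
  have c4 := h.rot.rot.rot.left hr hr0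
  have d2 : ∀ z ∈ K, (1/50) * (z.1 - 1/2) ≤ 1 - z.2 := by
    intro z hz
    have := c2 _ ⟨z, hz, rfl⟩
    simp only [aff, Prod.fst_add, Prod.snd_add, Prod.smul_fst, Prod.smul_snd, smul_eq_mul] at this
    linarith
  have d3 : ∀ z ∈ K, (1/50) * (1/2 - z.2) ≤ 1 - z.1 := by
    intro z hz
    have := c3 _ ⟨_, ⟨z, hz, rfl⟩, rfl⟩
    simp only [aff, Prod.fst_add, Prod.snd_add, Prod.smul_fst, Prod.smul_snd, smul_eq_mul] at this
    linarith
  have d4 : ∀ z ∈ K, (1/50) * (1/2 - z.1) ≤ z.2 := by
    intro z hz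
    have := c4 _ ⟨_, ⟨_, ⟨z, hz, rfl⟩, rfl⟩, rfl⟩
    simp only [aff, Prod.fst_add, Prod.snd_add, Prod.smul_fst, Prod.smul_snd, smul_eq_mul] at this
    linarith
  have hsub : K ⊆ convexHull ℝ {((-49/5002:ℝ), (51/5002:ℝ)), (4951/5002, -49/5002),
      (5051/5002, 4951/5002), (51/5002, 5051/5002)} := by
    intro z hz
    have e1 := c1 z hz
    have e2 := d2 z hz
    have e3 := d3 z hz
    have e4 := d4 z hz
    apply mem_quad
    · norm_num [det2]
    · norm_num [det2]
    · simp only [det2, Prod.fst_sub, Prod.snd_sub]; nlinarith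
    · simp only [det2, Prod.fst_sub, Prod.snd_sub]; nlinarith
    · simp only [det2, Prod.fst_sub, Prod.snd_sub]; nlinarith
    · simp only [det2, Prod.fst_sub, Prod.snd_sub]; nlinarith
  have h1 := hgood _ _ _ _ hsub
  have h2 := h1.trans (volume_quad_le (by norm_num [det2]) (by norm_num [det2]) (by norm_num [det2])
    (by norm_num [det2]))
  rw [ENNReal.ofReal_le_ofReal_iff (by norm_num [det2])] at h2
  norm_num [det2] at h2

end Pool.Agent.H948Q
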