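import Pool.Agent.H948Q.Top

set_option autoImplicit false

namespace Pool.Agent.H948Q

open MeasureTheory Set Filter Topology TopologicalSpace

/-- Blaschke selection for subsets of a compact set, with a parameter. -/
lemma limit_body (K : ℕ → Set (ℝ × ℝ)) (hc : ∀ n, IsCompact (K n)) (hne : ∀ n, (K n).Nonempty)
    (hsub : ∀ n, K n ⊆ Icc 0 1) (x : ℕ → ℝ × (ℝ × ℝ)) (hx : ∀ n, x n ∈ Icc (0 : ℝ × (ℝ × ℝ)) 1) :
    ∃ (L : Set (ℝ × ℝ)) (y : ℝ × (ℝ × ℝ)) (φ : ℕ → ℕ), StrictMono φ ∧ IsCompact L ∧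
      y ∈ Icc (0 : ℝ × (ℝ × ℝ)) 1 ∧ Tendsto (x ∘ φ) atTop (𝓝 y) ∧
      (∀ z ∈ L, ∃ w : ℕ → ℝ × ℝ, (∀ n, w n ∈ K (φ n)) ∧ Tendsto w atTop (𝓝 z)) ∧
      (∀ (w : ℕ → ℝ × ℝ) (z : ℝ × ℝ), (∀ n, w n ∈ K (φ n)) → Tendsto w atTop (𝓝 z) → z ∈ L) ∧
      (∀ U : Set (ℝ × ℝ), IsOpen U → L ⊆ U → ∀ᶠ n in atTop, K (φ n) ⊆ U) := by
  let S : Set (ℝ × ℝ) := Icc 0 1
  have hS : IsCompact S := isCompact_Icc
  have : CompactSpace S := isCompact_iff_compactSpace.mp hS
  have : CompactSpace (Icc (0 : ℝ × (ℝ × ℝ)) 1) := isCompact_iff_compactSpace.mp isCompact_Icc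
  let N : ℕ → NonemptyCompacts S := fun n =>
    ⟨⟨(Subtype.val : S → ℝ × ℝ) ⁻¹' (K n),
      (((hc n).isClosed.preimage continuous_subtype_val).isCompact)⟩, by
        obtain ⟨z, hz⟩ := hne n
        exact ⟨⟨z, hsub n hz⟩, hz⟩⟩
  have hNmem : ∀ n (z : S), z ∈ (N n : Set S) ↔ (z : ℝ × ℝ) ∈ K n := fun n z => Iff.rfl
  let Z : ℕ → NonemptyCompacts S × Icc (0 : ℝ × (ℝ × ℝ)) 1 := fun n => (N n, ⟨x n, hx n⟩)
  obtain ⟨⟨M, y⟩, φ, hφ, hlim⟩ := CompactSpace.tendsto_subseq Z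
  have hlim1 : Tendsto (fun n => N (φ n)) atTop (𝓝 M) := by
    have := (continuous_fst.tendsto _).comp hlim
    exact this
  have hlim2 : Tendsto (x ∘ φ) atTop (𝓝 (y : ℝ × (ℝ × ℝ))) := by
    have := (continuous_subtype_val.tendsto _).comp ((continuous_snd.tendsto _).comp hlim)
    exact this
  have hd : Tendsto (fun n => dist (N (φ n)) M) atTop (𝓝 0) := tendsto_iff_dist_tendsto_zero.mp hlim1
  have hLc : IsCompact ((Subtype.val : S → ℝ × ℝ) '' (M : Set S)) := M.isCompact.image continuous_subtype_val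
  have hfin : ∀ n, Metric.hausdorffEDist (N (φ n) : Set S) (M : Set S) ≠ ⊤ := fun n =>
    Metric.hausdorffEDist_ne_top_of_nonempty_of_bounded (N (φ n)).nonempty M.nonempty
      (N (φ n)).isCompact.isBounded M.isCompact.isBounded
  refine ⟨Subtype.val '' (M : Set S), y, φ, hφ, hLc, y.2, hlim2, ?_, ?_, ?_⟩
  · rintro _ ⟨z, hz, rfl⟩
    have h1 : ∀ n, ∃ w ∈ (N (φ n) : Set S), Metric.infDist z (N (φ n) : Set S) = dist z w := fun n =>
      (N (φ n)).isCompact.exists_infDist_eq_dist (N (φ n)).nonempty z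
    choose w hw1 hw2 using h1
    refine ⟨fun n => w n, fun n => hw1 n, ?_⟩
    have h2 : Tendsto w atTop (𝓝 z) := by
      rw [tendsto_iff_dist_tendsto_zero]
      refine squeeze_zero (fun _ => dist_nonneg) (fun n => ?_) hd
      rw [dist_comm, ← hw2 n, Metric.NonemptyCompacts.dist_eq, Metric.hausdorffDist_comm]
      exact Metric.infDist_le_hausdorffDist_of_mem hz (by rw [Metric.hausdorffEDist_comm]; exact hfin n)
    exact (continuous_subtype_val.tendsto _).comp h2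
  · intro w z hw hwz
    have hzS : z ∈ S := hS.isClosed.mem_of_tendsto hwz (Eventually.of_forall fun n => hsub _ (hw n))
    let w' : ℕ → S := fun n => ⟨w n, hsub _ (hw n)⟩
    have hw' : Tendsto w' atTop (𝓝 (⟨z, hzS⟩ : S)) := by
      rw [tendsto_subtype_rng]; exact hwz
    refine ⟨⟨z, hzS⟩, ?_, rfl⟩
    rw [M.isCompact.isClosed.mem_iff_infDist_zero M.nonempty]
    have h1 : Tendsto (fun n => Metric.infDist (w' n) (M : Set S)) atTop (𝓝 (Metric.infDist (⟨z, hzS⟩ : S) (M : Set S))) :=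
      ((Metric.continuous_infDist_pt _).tendsto _).comp hw'
    have h2 : Tendsto (fun n => Metric.infDist (w' n) (M : Set S)) atTop (𝓝 0) := by
      refine squeeze_zero (fun _ => Metric.infDist_nonneg) (fun n => ?_) hd
      rw [Metric.NonemptyCompacts.dist_eq]
      exact Metric.infDist_le_hausdorffDist_of_mem (hw n) (hfin n)
    exact tendsto_nhds_unique h1 h2
  · intro U hU hLU
    have hU' : IsOpen ((Subtype.val : S → ℝ × ℝ) ⁻¹' U) := hU.preimage continuous_subtype_val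
    have hMU : (M : Set S) ⊆ (Subtype.val : S → ℝ × ℝ) ⁻¹' U := fun z hz => hLU ⟨z, hz, rfl⟩
    obtain ⟨δ, hδ, hth⟩ := M.isCompact.exists_thickening_subset_open hU' hMU
    have h1 : ∀ᶠ n in atTop, dist (N (φ n)) M < δ := hd.eventually (gt_mem_nhds hδ)
    filter_upwards [h1] with n hn
    intro w hw
    rw [Metric.NonemptyCompacts.dist_eq] at hn
    have h2 : (⟨w, hsub _ hw⟩ : S) ∈ Metric.thickening δ (M : Set S) := by
      rw [Metric.mem_thickening_iff]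
      exact Metric.exists_dist_lt_of_hausdorffDist_lt (hw : (⟨w, hsub _ hw⟩ : S) ∈ (N (φ n) : Set S)) hn (hfin n)
    exact hth h2

end Pool.Agent.H948Q
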