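import Pool.Agent.H948Q.Norm

set_option autoImplicit false

namespace Pool.Agent.H948Q

open MeasureTheory Set

/-- Normalised bodies: inscribed quadrilateral of maximal area `1/2` with perpendicular diagonals of
length one. -/
structure Nrm (K : Set (ℝ × ℝ)) (s t : ℝ) : Prop where
  conv : Convex ℝ K
  comp : IsCompact K
  sq : ∀ z ∈ K, 0 ≤ z.1 ∧ z.1 ≤ 1 ∧ 0 ≤ z.2 ∧ z.2 ≤ 1
  A : ((0:ℝ), t) ∈ K
  B : (s, (0:ℝ)) ∈ K
  C : ((1:ℝ), t) ∈ K
  D : (s, (1:ℝ)) ∈ K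
  max : ∀ p1 ∈ K, ∀ p2 ∈ K, ∀ p3 ∈ K, ∀ p4 ∈ K, det2 (p3 - p1) (p4 - p2) ≤ 1

lemma Nrm.degenerate {κ : ℝ} {K : Set (ℝ × ℝ)} {s t : ℝ} (h : Nrm K s t)
    (hκ0 : 0 ≤ κ) (hκ : volume K ≤ ENNReal.ofReal κ)
    (hgood : Good (√2 * κ) K) {a b c : ℝ × ℝ} (ha : a ∈ K) (hb : b ∈ K) (hc : c ∈ K)
    (hdet : det2 (b - a) (c - a) = 1) (hsub : K ⊆ convexHull ℝ {a, b, c}) : False := by
  have h1 := good_tri hgood hsub
  rw [hdet, abs_one, ENNReal.ofReal_le_ofReal_iff (by norm_num)] at h1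
  have h2 : volume (convexHull ℝ {a, b, c}) ≤ ENNReal.ofReal κ := (measure_mono (tri_sub h.conv ha hb hc)).trans hκ
  rw [volume_tri, hdet, abs_one, ENNReal.ofReal_le_ofReal_iff hκ0] at h2
  have h3 : 1 < √2 := by
    rw [Real.lt_sqrt (by norm_num)]; norm_num
  nlinarith

lemma Nrm.inner {κ : ℝ} {K : Set (ℝ × ℝ)} {s t : ℝ} (h : Nrm K s t)
    (hκ0 : 0 ≤ κ) (hκ : volume K ≤ ENNReal.ofReal κ) (hgood : Good (√2 * κ) K) :
    0 < s ∧ s < 1 ∧ 0 < t ∧ t < 1 := by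
  have hA := h.sq _ h.A
  have hB := h.sq _ h.B
  simp only at hA hB
  have s0 : s ≠ 0 := by
    rintro rfl
    refine h.degenerate hκ0 hκ hgood h.B h.C h.D (by simp [det2]) ?_
    intro z hz
    have := h.sq z hz
    have m1 := h.max _ h.B _ hz _ h.C _ h.D
    have m2 := h.max _ h.B _ h.C _ hz _ h.D
    simp only [det2, Prod.fst_sub, Prod.snd_sub] at m1 m2
    apply mem_tri <;> simp only [det2, Prod.fst_sub, Prod.snd_sub] <;> nlinarith
  have s1 : s ≠ 1 := by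
    rintro rfl
    refine h.degenerate hκ0 hκ hgood h.A h.B h.D (by simp [det2]) ?_
    intro z hz
    have := h.sq z hz
    have m1 := h.max _ h.A _ hz _ h.B _ h.D
    have m2 := h.max _ h.A _ h.B _ h.D _ hz
    simp only [det2, Prod.fst_sub, Prod.snd_sub] at m1 m2
    apply mem_tri <;> simp only [det2, Prod.fst_sub, Prod.snd_sub] <;> nlinarith
  have t0 : t ≠ 0 := by
    rintro rfl
    refine h.degenerate hκ0 hκ hgood h.A h.C h.D (by simp [det2]) ?_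
    intro z hz
    have := h.sq z hz
    have m1 := h.max _ h.A _ h.C _ hz _ h.D
    have m2 := h.max _ h.A _ h.C _ h.D _ hz
    simp only [det2, Prod.fst_sub, Prod.snd_sub] at m1 m2
    apply mem_tri <;> simp only [det2, Prod.fst_sub, Prod.snd_sub] <;> nlinarith
  have t1 : t ≠ 1 := by
    rintro rfl
    refine h.degenerate hκ0 hκ hgood h.A h.B h.C (by simp [det2]) ?_
    intro z hz
    have := h.sq z hz
    have m1 := h.max _ h.A _ hz _ h.B _ h.C
    have m2 := h.max _ h.A _ h.B _ hz _ h.C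
    simp only [det2, Prod.fst_sub, Prod.snd_sub] at m1 m2
    apply mem_tri <;> simp only [det2, Prod.fst_sub, Prod.snd_sub] <;> nlinarith
  exact ⟨lt_of_le_of_ne hB.1 (Ne.symm s0), lt_of_le_of_ne hB.2.1 s1, lt_of_le_of_ne hA.2.2.1 (Ne.symm t0),
    lt_of_le_of_ne hA.2.2.2 t1⟩

lemma Nrm.not_good {κ : ℝ} {K : Set (ℝ × ℝ)} {s t : ℝ} (h : Nrm K s t)
    (hκ0 : 0 ≤ κ) (hκ : volume K ≤ ENNReal.ofReal κ) (hgood : Good (√2 * κ) K) : False := by
  obtain ⟨hs0, hs1, ht0, ht1⟩ := h.inner hκ0 hκ hgood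
  have h2 : √2 ^ 2 = 2 := Real.sq_sqrt (by norm_num)
  have h2p : 0 < √2 := by positivity
  obtain ⟨G, G0, G1, G2⟩ := step1 h.conv h.comp hgood h.sq hs0 hs1 ht0 ht1 h.A h.B h.C h.D hκ0 hκ
  have q1 := good_square hgood h.sq
  have a1 : √2 ≤ 1 + G := by
    by_contra hlt; push Not at hlt
    nlinarith
  have a2 : κ = √2 / 2 := by
    have l1 : √2 / 2 ≤ κ := by linarith
    have l2 : κ ≤ √2 / 2 := by nlinarith
    linarith
  have hq : √2 * κ = 1 := by rw [a2]; nlinarith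
  rw [hq] at hgood
  obtain ⟨ml, mr, mb, mt⟩ := mid_all h.conv h.comp hgood h.sq ⟨_, h.B, rfl⟩ ⟨_, h.D, rfl⟩ ⟨_, h.A, rfl⟩ ⟨_, h.C, rfl⟩
  have hne : K.Nonempty := ⟨_, ml⟩
  obtain ⟨⟨x1, y1⟩, h1, m1⟩ := exists_max h.comp hne (-1) (-1) 0
  obtain ⟨⟨x2, y2⟩, h2', m2⟩ := exists_max h.comp hne 1 (-1) 0
  obtain ⟨⟨x3, y3⟩, h3, m3⟩ := exists_max h.comp hne 1 1 0
  obtain ⟨⟨x4, y4⟩, h4, m4⟩ := exists_max h.comp hne (-1) 1 0
  simp only at m1 m2 m3 m4
  have n1 := m1 _ ml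
  have n2 := m2 _ mb
  have n3 := m3 _ mr
  have n4 := m4 _ mt
  simp only at n1 n2 n3 n4
  have cap := caps h.conv h.sq (s := 1/2) (t := 1/2) (by norm_num) (by norm_num) (by norm_num) (by norm_num)
    ml mb mr mt h1 h2' h3 h4 (by linarith) (by linarith) (by linarith) (by linarith)
  have cap := cap.trans hκ
  rw [ENNReal.ofReal_le_ofReal_iff hκ0] at cap
  set u0 := x1 + y1 with hu0
  set u1 := x3 + y3 with hu1
  set v0 := y2 - x2 with hv0
  set v1 := y4 - x4 with hv1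
  have hU : 1 ≤ u1 - u0 := by linarith
  have hV : 1 ≤ v1 - v0 := by linarith
  have cap' : (u1 - u0) + (v1 - v0) ≤ 2 * √2 := by rw [a2] at cap; linarith
  have bz : ∀ z ∈ K, u0 ≤ z.1 + z.2 ∧ z.1 + z.2 ≤ u1 ∧ v0 ≤ z.2 - z.1 ∧ z.2 - z.1 ≤ v1 := by
    intro z hz
    have := m1 z hz; have := m2 z hz; have := m3 z hz; have := m4 z hz
    refine ⟨by linarith, by linarith, by linarith, by linarith⟩
  set U := u1 - u0 with hUd
  set V := v1 - v0 with hVd
  have hUV : 2 ≤ U * V := by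
    have hU0 : 0 < U := by linarith
    have hV0 : 0 < V := by linarith
    have hd : det2 ((1 / U, -1 / V) : ℝ × ℝ) (1 / U, 1 / V) = 2 / (U * V) := by
      simp only [det2]; field_simp; ring
    have g2 := good_image hgood (c := (-u0 / U, -v0 / V)) (u := (1 / U, -1 / V)) (v := (1 / U, 1 / V))
      (by rw [hd]; positivity)
    have := good_square g2 (by
      rintro _ ⟨z, hz, rfl⟩
      obtain ⟨z1, z2, z3, z4⟩ := bz z hz
      have e1 : (aff (-u0 / U, -v0 / V) (1 / U, -1 / V) (1 / U, 1 / V) z).1 = (z.1 + z.2 - u0) / U := by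
        simp only [aff, Prod.fst_add, Prod.smul_fst, smul_eq_mul]; field_simp; ring
      have e2 : (aff (-u0 / U, -v0 / V) (1 / U, -1 / V) (1 / U, 1 / V) z).2 = (z.2 - z.1 - v0) / V := by
        simp only [aff, Prod.snd_add, Prod.smul_snd, smul_eq_mul]; field_simp; ring
      rw [e1, e2]
      refine ⟨div_nonneg (by linarith) hU0.le, ?_, div_nonneg (by linarith) hV0.le, ?_⟩
      · rw [div_le_one hU0]; linarith
      · rw [div_le_one hV0]; linarith)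
    rw [hd, abs_of_pos (by positivity), mul_one, div_le_one (by positivity)] at this
    exact this
  have eU : U = √2 := by nlinarith [sq_nonneg (U - V), sq_nonneg (U - √2), sq_nonneg (V - √2)]
  have eV : V = √2 := by nlinarith [sq_nonneg (U - V), sq_nonneg (U - √2), sq_nonneg (V - √2)]
  set r := √2 / 2 with hr
  have hrU : r * U = 1 := by rw [eU, hr]; nlinarith
  have hrV : r * V = 1 := by rw [eV, hr]; nlinarith
  have hr2 : r ^ 2 = 1 / 2 := by rw [hr]; nlinarith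
  have hr0 : 0 < r := by positivity
  have hd : det2 ((r, -r) : ℝ × ℝ) (r, r) = 1 := by simp only [det2]; nlinarith
  have e1 : ∀ z : ℝ × ℝ, aff (-(r * u0), -(r * v0)) (r, -r) (r, r) z = (r * (z.1 + z.2 - u0), r * (z.2 - z.1 - v0)) := by
    intro z; ext
    · simp only [aff, Prod.fst_add, Prod.smul_fst, smul_eq_mul]; ring
    · simp only [aff, Prod.snd_add, Prod.smul_snd, smul_eq_mul]; ring
  have g3 := good_image hgood (c := (-(r * u0), -(r * v0))) (u := (r, -r)) (v := (r, r)) (by rw [hd]; norm_num)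
  rw [hd, abs_one, one_mul] at g3
  set K2 := aff (-(r * u0), -(r * v0)) (r, -r) (r, r) '' K with hK2
  have mem2 : ∀ z ∈ K, (r * (z.1 + z.2 - u0), r * (z.2 - z.1 - v0)) ∈ K2 := fun z hz => ⟨z, hz, e1 z⟩
  have sq2 : ∀ z ∈ K2, 0 ≤ z.1 ∧ z.1 ≤ 1 ∧ 0 ≤ z.2 ∧ z.2 ≤ 1 := by
    rintro _ ⟨z, hz, rfl⟩
    obtain ⟨z1, z2, z3, z4⟩ := bz z hz
    rw [e1]
    refine ⟨mul_nonneg hr0.le (by linarith), ?_, mul_nonneg hr0.le (by linarith), ?_⟩
    · rw [← hrU]; exact mul_le_mul_of_nonneg_left (by linarith) hr0.le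
    · rw [← hrV]; exact mul_le_mul_of_nonneg_left (by linarith) hr0.le
  have conv2 : Convex ℝ K2 := convex_aff h.conv
  have comp2 : IsCompact K2 := h.comp.image (continuous_aff _ _ _)
  obtain ⟨nl, nr, nb, nt⟩ := mid_all conv2 comp2 g3 sq2
    ⟨_, mem2 _ h2', by simp only; rw [hv0]; ring⟩
    ⟨_, mem2 _ h4, by simp only; rw [← hrV, hVd, hv1]⟩
    ⟨_, mem2 _ h1, by simp only; rw [hu0]; ring⟩
    ⟨_, mem2 _ h3, by simp only; rw [← hrU, hUd, hu1]⟩
  have conf : Conf r K2 (r * (1/2 - u0)) (r * (-1/2 - v0)) := by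
    refine ⟨conv2, sq2, nl, nr, nb, nt, ?_, ?_, ?_, ?_, ?_, ?_⟩
    · convert mem2 _ mb using 2 <;> simp only <;> ring
    · convert mem2 _ mr using 2 <;> simp only <;> ring
    · convert mem2 _ mt using 2 <;> simp only <;> ring
    · convert mem2 _ ml using 2 <;> simp only <;> ring
    · rintro _ ⟨p1, k1, rfl⟩ _ ⟨p2, k2, rfl⟩ _ ⟨p3, k3, rfl⟩ _ ⟨p4, k4, rfl⟩
      have := h.max p1 k1 p2 k2 p3 k3 p4 k4
      simp only [e1]
      simp only [det2, Prod.fst_sub, Prod.snd_sub] at this ⊢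
      have e : (r * (p3.1 + p3.2 - u0) - r * (p1.1 + p1.2 - u0)) * (r * (p4.2 - p4.1 - v0) - r * (p2.2 - p2.1 - v0)) -
          (r * (p3.2 - p3.1 - v0) - r * (p1.2 - p1.1 - v0)) * (r * (p4.1 + p4.2 - u0) - r * (p2.1 + p2.2 - u0))
          = (2 * r ^ 2) * ((p3.1 - p1.1) * (p4.2 - p2.2) - (p3.2 - p1.2) * (p4.1 - p2.1)) := by ring
      rw [e, hr2]; linarith
    · rw [hK2, volume_aff, hd, abs_one, ENNReal.ofReal_one, one_mul, ← a2]; exact hκ
  exact conf.not_good hr2 hr0 g3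

end Pool.Agent.H948Q
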