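import Pool.Agent.H948Q.Final

set_option autoImplicit false

namespace Pool.Agent.H948Q

open MeasureTheory Set

lemma good_mono {q q' : ℝ} {K : Set (ℝ × ℝ)} (h : Good q K) (hq : q' ≤ q) : Good q' K :=
  fun a b c d hs => (ENNReal.ofReal_le_ofReal hq).trans (h a b c d hs)

/-- a triangle is a degenerate quadrilateral -/
lemma good_tri {q : ℝ} {K : Set (ℝ × ℝ)} (hgood : Good q K) {a b c : ℝ × ℝ}
    (hsub : K ⊆ convexHull ℝ {a, b, c}) : ENNReal.ofReal q ≤ ENNReal.ofReal (|det2 (b - a) (c - a)| / 2) := by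
  rw [← volume_tri]
  have := hgood a b c c (by simpa using hsub)
  simpa using this

/-- A maximum of `al x + be y + ga` on `K`. -/
lemma exists_max {K : Set (ℝ × ℝ)} (hcomp : IsCompact K) (hne : K.Nonempty) (al be ga : ℝ) :
    ∃ z ∈ K, ∀ w ∈ K, al * w.1 + be * w.2 + ga ≤ al * z.1 + be * z.2 + ga := by
  obtain ⟨z, hz, h⟩ := hcomp.exists_isMaxOn hne
    (f := fun w : ℝ × ℝ => al * w.1 + be * w.2 + ga) (by fun_prop)
  exact ⟨z, hz, fun w hw => h hw⟩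

/-- Step 1: the two inequalities for a normalised body. -/
lemma step1 {q κ : ℝ} {K : Set (ℝ × ℝ)} (hconv : Convex ℝ K) (hcomp : IsCompact K) (hgood : Good q K)
    (hsq : ∀ z ∈ K, 0 ≤ z.1 ∧ z.1 ≤ 1 ∧ 0 ≤ z.2 ∧ z.2 ≤ 1) {s t : ℝ} (hs0 : 0 < s) (hs1 : s < 1)
    (ht0 : 0 < t) (ht1 : t < 1) (hA : ((0:ℝ), t) ∈ K) (hB : (s, (0:ℝ)) ∈ K) (hC : ((1:ℝ), t) ∈ K)
    (hD : (s, (1:ℝ)) ∈ K) (hκ0 : 0 ≤ κ) (hκ : volume K ≤ ENNReal.ofReal κ) :
    ∃ G : ℝ, 0 ≤ G ∧ (1 + G) / 2 ≤ κ ∧ q ≤ (1 + G) ^ 2 / 2 := by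
  have hne : K.Nonempty := ⟨_, hA⟩
  have hs1' : 0 < 1 - s := by linarith
  have ht1' : 0 < 1 - t := by linarith
  obtain ⟨⟨x1, y1⟩, h1, m1⟩ := exists_max hcomp hne (-t) (-s) (s * t)
  obtain ⟨⟨x2, y2⟩, h2, m2⟩ := exists_max hcomp hne t (-(1 - s)) ((1 - s) * t - t)
  obtain ⟨⟨x3, y3⟩, h3, m3⟩ := exists_max hcomp hne (1 - t) (1 - s) ((1 - s) * (1 - t) - (1 - t) - (1 - s))
  obtain ⟨⟨x4, y4⟩, h4, m4⟩ := exists_max hcomp hne (-(1 - t)) s (s * (1 - t) - s)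
  simp only at m1 m2 m3 m4
  have n1 := m1 _ hA
  have n2 := m2 _ hB
  have n3 := m3 _ hC
  have n4 := m4 _ hD
  simp only at n1 n2 n3 n4
  have b1 := hsq _ h1
  have b2 := hsq _ h2
  have b3 := hsq _ h3
  have b4 := hsq _ h4
  simp only at b1 b2 b3 b4
  set g1 := s * t - t * x1 - s * y1 with hg1
  set g2 := (1 - s) * t - t * (1 - x2) - (1 - s) * y2 with hg2
  set g3 := (1 - s) * (1 - t) - (1 - t) * (1 - x3) - (1 - s) * (1 - y3) with hg3
  set g4 := s * (1 - t) - (1 - t) * x4 - s * (1 - y4) with hg4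
  have p1 : 0 ≤ g1 := by rw [hg1]; linarith
  have p2 : 0 ≤ g2 := by rw [hg2]; linarith
  have p3 : 0 ≤ g3 := by rw [hg3]; linarith
  have p4 : 0 ≤ g4 := by rw [hg4]; linarith
  refine ⟨g1 + g2 + g3 + g4, by linarith, ?_, ?_⟩
  · have := caps hconv hsq hs0 hs1 ht0 ht1 hA hB hC hD h1 h2 h3 h4 p1 p2 p3 p4
    have := this.trans hκ
    rw [ENNReal.ofReal_le_ofReal_iff hκ0] at this
    linarith
  · have w1 : 0 < s * t := by positivity
    have w2 : 0 < (1 - s) * t := by positivity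
    have w3 : 0 < (1 - s) * (1 - t) := by positivity
    have w4 : 0 < s * (1 - t) := by positivity
    have := outer hgood hs0 hs1 ht0 ht1 (l1 := g1 / (s * t)) (l2 := g2 / ((1 - s) * t))
      (l3 := g3 / ((1 - s) * (1 - t))) (l4 := g4 / (s * (1 - t))) (by positivity) (by positivity)
      (by positivity) (by positivity)
      (by rw [div_le_one w1]; nlinarith [mul_nonneg ht0.le b1.1, mul_nonneg hs0.le b1.2.2.1])
      (by rw [div_le_one w2]; nlinarith [mul_nonneg ht0.le (sub_nonneg.mpr b2.2.1), mul_nonneg hs1'.le b2.2.2.1])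
      (by rw [div_le_one w3]; nlinarith [mul_nonneg ht1'.le (sub_nonneg.mpr b3.2.1), mul_nonneg hs1'.le (sub_nonneg.mpr b3.2.2.2)])
      (by rw [div_le_one w4]; nlinarith [mul_nonneg ht1'.le b4.1, mul_nonneg hs0.le (sub_nonneg.mpr b4.2.2.2)])
      (by intro z hz; rw [mul_div_cancel₀ _ w1.ne']; have := m1 z hz; rw [hg1]; linarith)
      (by intro z hz; rw [mul_div_cancel₀ _ w2.ne']; have := m2 z hz; rw [hg2]; linarith)
      (by intro z hz; rw [mul_div_cancel₀ _ w3.ne']; have := m3 z hz; rw [hg3]; linarith)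
      (by intro z hz; rw [mul_div_cancel₀ _ w4.ne']; have := m4 z hz; rw [hg4]; linarith)
    rw [mul_div_cancel₀ _ w1.ne', mul_div_cancel₀ _ w2.ne', mul_div_cancel₀ _ w3.ne', mul_div_cancel₀ _ w4.ne'] at this
    have e : 1 + g1 + g2 + g3 + g4 = 1 + (g1 + g2 + g3 + g4) := by ring
    rwa [e] at this

end Pool.Agent.H948Q
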