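import Pool.Agent.H948Q.Caps

set_option autoImplicit false

namespace Pool.Agent.H948Q

open MeasureTheory Set

lemma good_square {q : ℝ} {K : Set (ℝ × ℝ)} (hgood : Good q K)
    (hsq : ∀ z ∈ K, 0 ≤ z.1 ∧ z.1 ≤ 1 ∧ 0 ≤ z.2 ∧ z.2 ≤ 1) : q ≤ 1 := by
  have hsub : K ⊆ convexHull ℝ {((0:ℝ), (0:ℝ)), (1, 0), (1, 1), (0, 1)} := by
    intro z hz
    have := hsq z hz
    apply mem_quad <;> simp [det2] <;> linarith
  have h1 := hgood _ _ _ _ hsub
  have h2 : volume (convexHull ℝ {((0:ℝ), (0:ℝ)), (1, 0), (1, 1), (0, 1)}) ≤ ENNReal.ofReal 1 := by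
    refine (volume_quad_le ?_ ?_ ?_ ?_).trans ?_
    · simp [det2]
    · simp [det2]
    · simp [det2]
    · simp [det2]
    · apply ENNReal.ofReal_le_ofReal; simp [det2]
  have h3 := h1.trans h2
  rwa [ENNReal.ofReal_le_ofReal_iff (by norm_num)] at h3

/-- The circumscribed quadrilateral with sides parallel to the sides of the inscribed one. -/
lemma outer {q : ℝ} {K : Set (ℝ × ℝ)} (hgood : Good q K) {s t : ℝ} (hs0 : 0 < s) (hs1 : s < 1)
    (ht0 : 0 < t) (ht1 : t < 1) {l1 l2 l3 l4 : ℝ} (p1 : 0 ≤ l1) (p2 : 0 ≤ l2) (p3 : 0 ≤ l3) (p4 : 0 ≤ l4)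
    (q1 : l1 ≤ 1) (q2 : l2 ≤ 1) (q3 : l3 ≤ 1) (q4 : l4 ≤ 1)
    (m1 : ∀ z ∈ K, s * t - t * z.1 - s * z.2 ≤ s * t * l1)
    (m2 : ∀ z ∈ K, (1 - s) * t - t * (1 - z.1) - (1 - s) * z.2 ≤ (1 - s) * t * l2)
    (m3 : ∀ z ∈ K, (1 - s) * (1 - t) - (1 - t) * (1 - z.1) - (1 - s) * (1 - z.2) ≤ (1 - s) * (1 - t) * l3)
    (m4 : ∀ z ∈ K, s * (1 - t) - (1 - t) * z.1 - s * (1 - z.2) ≤ s * (1 - t) * l4) :
    q ≤ (1 + s * t * l1 + (1 - s) * t * l2 + (1 - s) * (1 - t) * l3 + s * (1 - t) * l4) ^ 2 / 2 := by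
  have hs1' : 0 < 1 - s := by linarith
  have ht1' : 0 < 1 - t := by linarith
  set mu1 := 1 + (1 - s) * l2 + (1 - t) * l4 + l1 * (s + t - 1) with hmu1
  set mu2 := 1 + s * l1 + (1 - t) * l3 + l2 * (t - s) with hmu2
  set mu3 := 1 + s * l4 + t * l2 + l3 * (1 - s - t) with hmu3
  set mu4 := 1 + (1 - s) * l3 + t * l1 + l4 * (s - t) with hmu4
  have n1 : 0 < mu1 := by
    have : 0 ≤ (1 - l1) := by linarith
    rcases p1.eq_or_lt with h | h
    · rw [hmu1, ← h]; have := mul_nonneg hs1'.le p2; have := mul_nonneg ht1'.le p4; linarith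
    · nlinarith [mul_nonneg hs1'.le p2, mul_nonneg ht1'.le p4, mul_pos h hs0, mul_pos h ht0]
  have n2 : 0 < mu2 := by
    rcases p2.eq_or_lt with h | h
    · rw [hmu2, ← h]; have := mul_nonneg hs0.le p1; have := mul_nonneg ht1'.le p3; linarith
    · nlinarith [mul_nonneg hs0.le p1, mul_nonneg ht1'.le p3, mul_pos h hs1', mul_pos h ht0]
  have n3 : 0 < mu3 := by
    rcases p3.eq_or_lt with h | h
    · rw [hmu3, ← h]; have := mul_nonneg hs0.le p4; have := mul_nonneg ht0.le p2; linarith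
    · nlinarith [mul_nonneg hs0.le p4, mul_nonneg ht0.le p2, mul_pos h hs1', mul_pos h ht1']
  have n4 : 0 < mu4 := by
    rcases p4.eq_or_lt with h | h
    · rw [hmu4, ← h]; have := mul_nonneg hs1'.le p3; have := mul_nonneg ht0.le p1; linarith
    · nlinarith [mul_nonneg hs1'.le p3, mul_nonneg ht0.le p1, mul_pos h hs0, mul_pos h ht1']
  set A : ℝ × ℝ := (-(s * (t * l1 + (1 - t) * l4)), t + t * (1 - t) * (l4 - l1)) with hA
  set B : ℝ × ℝ := (s + s * (1 - s) * (l2 - l1), -(t * (s * l1 + (1 - s) * l2))) with hB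
  set C : ℝ × ℝ := (1 + (1 - s) * (t * l2 + (1 - t) * l3), t + t * (1 - t) * (l3 - l2)) with hC
  set D : ℝ × ℝ := (s + s * (1 - s) * (l3 - l4), 1 + (1 - t) * ((1 - s) * l3 + s * l4)) with hD
  have T1 : 0 < det2 (B - A) (C - A) := by
    have : det2 (B - A) (C - A) = mu1 * mu2 * t := by
      simp only [det2, hA, hB, hC, hmu1, hmu2, Prod.fst_sub, Prod.snd_sub]; ring
    rw [this]; positivity
  have T2 : 0 < det2 (C - A) (D - A) := by
    have : det2 (C - A) (D - A) = mu3 * mu4 * (1 - t) := by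
      simp only [det2, hA, hC, hD, hmu3, hmu4, Prod.fst_sub, Prod.snd_sub]; ring
    rw [this]; positivity
  have T3 : 0 ≤ det2 (B - A) (D - A) := by
    have : det2 (B - A) (D - A) = mu1 * mu4 * s := by
      simp only [det2, hA, hB, hD, hmu1, hmu4, Prod.fst_sub, Prod.snd_sub]; ring
    rw [this]; positivity
  have T4 : 0 ≤ det2 (C - B) (D - B) := by
    have : det2 (C - B) (D - B) = mu2 * mu3 * (1 - s) := by
      simp only [det2, hB, hC, hD, hmu2, hmu3, Prod.fst_sub, Prod.snd_sub]; ring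
    rw [this]; positivity
  have hsub : K ⊆ convexHull ℝ {A, B, C, D} := by
    intro z hz
    apply mem_quad T1 T2
    · have e : det2 (B - A) (z - A) = mu1 * (s * t * l1 - (s * t - t * z.1 - s * z.2)) := by
        simp only [det2, hA, hB, hmu1, Prod.fst_sub, Prod.snd_sub]; ring
      rw [e]; exact mul_nonneg n1.le (by linarith [m1 z hz])
    · have e : det2 (C - B) (z - B) = mu2 * ((1 - s) * t * l2 - ((1 - s) * t - t * (1 - z.1) - (1 - s) * z.2)) := by
        simp only [det2, hB, hC, hmu2, Prod.fst_sub, Prod.snd_sub]; ring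
      rw [e]; exact mul_nonneg n2.le (by linarith [m2 z hz])
    · have e : det2 (D - C) (z - C) = mu3 * ((1 - s) * (1 - t) * l3 - ((1 - s) * (1 - t) - (1 - t) * (1 - z.1) - (1 - s) * (1 - z.2))) := by
        simp only [det2, hC, hD, hmu3, Prod.fst_sub, Prod.snd_sub]; ring
      rw [e]; exact mul_nonneg n3.le (by linarith [m3 z hz])
    · have e : det2 (A - D) (z - D) = mu4 * (s * (1 - t) * l4 - (s * (1 - t) - (1 - t) * z.1 - s * (1 - z.2))) := by
        simp only [det2, hA, hD, hmu4, Prod.fst_sub, Prod.snd_sub]; ring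
      rw [e]; exact mul_nonneg n4.le (by linarith [m4 z hz])
  have h1 := hgood _ _ _ _ hsub
  have h2 := h1.trans (volume_quad_le T1 T2 T3 T4)
  have e : det2 (C - A) (D - B) = (1 + s * t * l1 + (1 - s) * t * l2 + (1 - s) * (1 - t) * l3 + s * (1 - t) * l4) ^ 2
      - s * (1 - s) * (t * (1 - t)) * (l1 - l2 + l3 - l4) ^ 2 := by
    simp only [det2, hA, hB, hC, hD, Prod.fst_sub, Prod.snd_sub]; ring
  rw [e] at h2
  have hn : 0 ≤ s * (1 - s) * (t * (1 - t)) * (l1 - l2 + l3 - l4) ^ 2 := by positivity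
  have h3 : ENNReal.ofReal q ≤ ENNReal.ofReal ((1 + s * t * l1 + (1 - s) * t * l2 + (1 - s) * (1 - t) * l3 + s * (1 - t) * l4) ^ 2 / 2) := by
    refine h2.trans (ENNReal.ofReal_le_ofReal ?_)
    linarith
  rwa [ENNReal.ofReal_le_ofReal_iff (by positivity)] at h3

end Pool.Agent.H948Q
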