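import Pool.Agent.H948Q.Basic

set_option autoImplicit false

namespace Pool.Agent.H948Q

open MeasureTheory Set

lemma det2_add_smul (p q r : ℝ × ℝ) (a b : ℝ) : det2 p (a • q + b • r) = a * det2 p q + b * det2 p r := by
  simp [det2]; ring

/-- closed half plane to the left of the line `a b`. -/
def half (a b : ℝ × ℝ) : Set (ℝ × ℝ) := {z | 0 ≤ det2 (b - a) (z - a)}

lemma convex_half (a b : ℝ × ℝ) : Convex ℝ (half a b) := by
  intro p hp q hq s t hs ht hst
  simp only [half, mem_setOf_eq, det2, Prod.fst_sub, Prod.snd_sub, Prod.fst_add, Prod.snd_add,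
    Prod.smul_fst, Prod.smul_snd, smul_eq_mul] at *
  have e : (b.1 - a.1) * (s * p.2 + t * q.2 - a.2) - (b.2 - a.2) * (s * p.1 + t * q.1 - a.1)
      = s * ((b.1 - a.1) * (p.2 - a.2) - (b.2 - a.2) * (p.1 - a.1))
       + t * ((b.1 - a.1) * (q.2 - a.2) - (b.2 - a.2) * (q.1 - a.1)) := by
    have : t = 1 - s := by linarith
    subst this; ring
  rw [e]
  exact add_nonneg (mul_nonneg hs hp) (mul_nonneg ht hq)

lemma mem_quad {a b c d z : ℝ × ℝ} (T1 : 0 < det2 (b - a) (c - a)) (T2 : 0 < det2 (c - a) (d - a))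
    (h1 : 0 ≤ det2 (b - a) (z - a)) (h2 : 0 ≤ det2 (c - b) (z - b)) (h3 : 0 ≤ det2 (d - c) (z - c))
    (h4 : 0 ≤ det2 (a - d) (z - d)) : z ∈ convexHull ℝ {a, b, c, d} := by
  by_cases h : 0 ≤ det2 (c - a) (z - a)
  · have : z ∈ convexHull ℝ {a, c, d} := mem_tri T2 h h3 h4
    refine convexHull_mono ?_ this
    intro x hx; simp only [mem_insert_iff, mem_singleton_iff] at *; tauto
  · have : z ∈ convexHull ℝ {a, b, c} := by
      apply mem_tri T1 h1 h2
      simp only [det2, Prod.fst_sub, Prod.snd_sub] at *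
      nlinarith
    refine convexHull_mono ?_ this
    intro x hx; simp only [mem_insert_iff, mem_singleton_iff] at *; tauto

lemma volume_quad_le {a b c d : ℝ × ℝ} (T1 : 0 < det2 (b - a) (c - a)) (T2 : 0 < det2 (c - a) (d - a))
    (T3 : 0 ≤ det2 (b - a) (d - a)) (T4 : 0 ≤ det2 (c - b) (d - b)) :
    volume (convexHull ℝ {a, b, c, d}) ≤ ENNReal.ofReal (det2 (c - a) (d - b) / 2) := by
  have hsub : convexHull ℝ {a, b, c, d} ⊆ convexHull ℝ {a, b, c} ∪ convexHull ℝ {a, c, d} := by
    intro z hz
    have k1 : z ∈ half a b := by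
      refine convexHull_min ?_ (convex_half a b) hz
      intro x hx; simp only [mem_insert_iff, mem_singleton_iff] at hx
      simp only [half, mem_setOf_eq, det2, Prod.fst_sub, Prod.snd_sub] at *
      rcases hx with rfl | rfl | rfl | rfl <;> nlinarith
    have k2 : z ∈ half b c := by
      refine convexHull_min ?_ (convex_half b c) hz
      intro x hx; simp only [mem_insert_iff, mem_singleton_iff] at hx
      simp only [half, mem_setOf_eq, det2, Prod.fst_sub, Prod.snd_sub] at *
      rcases hx with rfl | rfl | rfl | rfl <;> nlinarith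
    have k3 : z ∈ half c d := by
      refine convexHull_min ?_ (convex_half c d) hz
      intro x hx; simp only [mem_insert_iff, mem_singleton_iff] at hx
      simp only [half, mem_setOf_eq, det2, Prod.fst_sub, Prod.snd_sub] at *
      rcases hx with rfl | rfl | rfl | rfl <;> nlinarith
    have k4 : z ∈ half d a := by
      refine convexHull_min ?_ (convex_half d a) hz
      intro x hx; simp only [mem_insert_iff, mem_singleton_iff] at hx
      simp only [half, mem_setOf_eq, det2, Prod.fst_sub, Prod.snd_sub] at *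
      rcases hx with rfl | rfl | rfl | rfl <;> nlinarith
    simp only [half, mem_setOf_eq] at k1 k2 k3 k4
    by_cases h : 0 ≤ det2 (c - a) (z - a)
    · exact Or.inr (mem_tri T2 h k3 k4)
    · left
      apply mem_tri T1 k1 k2
      simp only [det2, Prod.fst_sub, Prod.snd_sub] at *
      nlinarith
  refine (measure_mono hsub).trans ((measure_union_le _ _).trans ?_)
  rw [volume_tri, volume_tri, ← ENNReal.ofReal_add (by positivity) (by positivity), abs_of_pos T1,
    abs_of_pos T2]
  apply ENNReal.ofReal_le_ofReal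
  apply le_of_eq
  simp only [det2, Prod.fst_sub, Prod.snd_sub]; ring

/-- A line in the plane is a null set. -/
lemma volume_line (al be ga : ℝ) (h : al ≠ 0 ∨ be ≠ 0) :
    volume {z : ℝ × ℝ | al * z.1 + be * z.2 + ga = 0} = 0 := by
  have hab : 0 < al ^ 2 + be ^ 2 := by
    rcases h with h | h
    · have := sq_nonneg be; positivity
    · have := sq_nonneg al; positivity
  set u : ℝ × ℝ := (al, be)
  set v : ℝ × ℝ := (-be, al)
  have hsub : {z : ℝ × ℝ | al * z.1 + be * z.2 + ga = 0} ⊆
      aff (0, 0) u v '' ({(-ga / (al ^ 2 + be ^ 2))} ×ˢ (univ : Set ℝ)) := by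
    intro z hz
    simp only [mem_setOf_eq] at hz
    refine ⟨(-ga / (al ^ 2 + be ^ 2), (-be * z.1 + al * z.2) / (al ^ 2 + be ^ 2)), ⟨rfl, mem_univ _⟩, ?_⟩
    have h1 : -ga = al * z.1 + be * z.2 := by linarith
    rw [h1]
    have h2 := hab.ne'
    ext
    · simp [aff, u, v]; field_simp; ring
    · simp [aff, u, v]; field_simp; ring
  refine measure_mono_null hsub ?_
  rw [volume_aff, Measure.volume_eq_prod, Measure.prod_prod]
  simp

lemma measurableSet_tri (a b c : ℝ × ℝ) : MeasurableSet (convexHull ℝ {a, b, c}) := by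
  apply IsCompact.measurableSet
  apply Set.Finite.isCompact_convexHull
  simp

/-- `X` on the side `φ ≤ 0`, `Y` on the side `φ ≥ 0` of a line. -/
lemma volume_add_le {K X Y : Set (ℝ × ℝ)} (al be ga : ℝ) (h : al ≠ 0 ∨ be ≠ 0)
    (hX : ∀ z ∈ X, al * z.1 + be * z.2 + ga ≤ 0) (hY : ∀ z ∈ Y, 0 ≤ al * z.1 + be * z.2 + ga)
    (hXK : X ⊆ K) (hYK : Y ⊆ K) (hm : MeasurableSet X) : volume X + volume Y ≤ volume K := by
  have hY' : volume Y ≤ volume (Y \ X) := by
    have : Y ⊆ (Y \ X) ∪ {z : ℝ × ℝ | al * z.1 + be * z.2 + ga = 0} := by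
      intro z hz
      by_cases hx : z ∈ X
      · right; exact le_antisymm (hX z hx) (hY z hz)
      · left; exact ⟨hz, hx⟩
    refine (measure_mono this).trans ((measure_union_le _ _).trans ?_)
    rw [volume_line _ _ _ h, add_zero]
  calc volume X + volume Y ≤ volume X + volume (Y \ X) := by gcongr
    _ = volume (X ∪ (Y \ X)) := by
        rw [measure_union' disjoint_sdiff_right hm]
    _ ≤ volume K := measure_mono (union_subset hXK (diff_subset.trans hYK))

end Pool.Agent.H948Q
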