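import Pool.Agent.H948Q.Main

set_option autoImplicit false

namespace Pool.Agent.H948Q

open MeasureTheory Set

lemma det2_aff (c u v p q r w : ℝ × ℝ) :
    det2 (aff c u v p - aff c u v q) (aff c u v r - aff c u v w) = det2 u v * det2 (p - q) (r - w) := by
  simp only [det2, aff, Prod.fst_sub, Prod.snd_sub, Prod.fst_add, Prod.snd_add, Prod.smul_fst,
    Prod.smul_snd, smul_eq_mul]
  ring

lemma exists_quad_max {K : Set (ℝ × ℝ)} (hcomp : IsCompact K) (hvol : volume K ≠ 0) :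
    ∃ A ∈ K, ∃ B ∈ K, ∃ C ∈ K, ∃ D ∈ K, 0 < det2 (C - A) (D - B) ∧
      ∀ p1 ∈ K, ∀ p2 ∈ K, ∀ p3 ∈ K, ∀ p4 ∈ K, det2 (p3 - p1) (p4 - p2) ≤ det2 (C - A) (D - B) := by
  have hne : K.Nonempty := by
    by_contra h
    rw [not_nonempty_iff_eq_empty] at h
    rw [h] at hvol; simp at hvol
  have hc4 : IsCompact (K ×ˢ (K ×ˢ (K ×ˢ K))) := hcomp.prod (hcomp.prod (hcomp.prod hcomp))
  obtain ⟨⟨A, B, C, D⟩, ⟨hA, hB, hC, hD⟩, hm⟩ := hc4.exists_isMaxOn (hne.prod (hne.prod (hne.prod hne)))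
    (f := fun x : (ℝ × ℝ) × ((ℝ × ℝ) × ((ℝ × ℝ) × (ℝ × ℝ))) => det2 (x.2.2.1 - x.1) (x.2.2.2 - x.2.1))
    (by unfold det2; fun_prop)
  simp only at hA hB hC hD
  have hm' : ∀ p1 ∈ K, ∀ p2 ∈ K, ∀ p3 ∈ K, ∀ p4 ∈ K, det2 (p3 - p1) (p4 - p2) ≤ det2 (C - A) (D - B) := by
    intro p1 h1 p2 h2 p3 h3 p4 h4
    exact hm (a := (p1, p2, p3, p4)) ⟨h1, h2, h3, h4⟩
  refine ⟨A, hA, B, hB, C, hC, D, hD, ?_, hm'⟩
  by_contra hn
  push Not at hn
  apply hvol
  obtain ⟨p, hp⟩ := hne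
  by_cases hq : ∃ q ∈ K, q ≠ p
  · obtain ⟨q, hq, hqp⟩ := hq
    have hsub : K ⊆ {z : ℝ × ℝ | (-(q - p).2) * z.1 + (q - p).1 * z.2 + (p.1 * (q - p).2 - p.2 * (q - p).1) = 0} := by
      intro z hz
      have l1 := (hm' p hp p hp q hq z hz).trans hn
      have l2 := (hm' p hp z hz q hq p hp).trans hn
      simp only [det2, Prod.fst_sub, Prod.snd_sub] at l1 l2
      simp only [Prod.fst_sub, Prod.snd_sub, mem_setOf_eq]
      nlinarith
    refine measure_mono_null hsub (volume_line _ _ _ ?_)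
    by_contra hcon
    push Not at hcon
    apply hqp
    have h1 : (q - p).2 = 0 := by linarith [hcon.1]
    have : q - p = 0 := by ext; exact hcon.2; exact h1
    exact sub_eq_zero.mp this
  · push Not at hq
    have : K ⊆ {p} := fun z hz => hq z hz
    exact measure_mono_null this (measure_singleton p)

/-- Normalisation. -/
lemma exists_nrm {K : Set (ℝ × ℝ)} (hconv : Convex ℝ K) (hcomp : IsCompact K) (hvol : volume K ≠ 0) :
    ∃ (c u v : ℝ × ℝ) (s t : ℝ), 0 < det2 u v ∧ Nrm (aff c u v '' K) s t := by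
  obtain ⟨A, hA, B, hB, C, hC, D, hD, hpos, hmax⟩ := exists_quad_max hcomp hvol
  set u := C - A with hu
  set v := D - B with hv
  set m := det2 u v with hm
  set t := det2 u (A - B) / m with ht
  set s := det2 (B - A) v / m with hs
  set c := A - t • v with hc
  have hne : det2 u v ≠ 0 := hpos.ne'
  have hmne : m ≠ 0 := hpos.ne'
  have eB : B - A = s • u - t • v := by
    have e1 : m • (B - A) = (det2 (B - A) v) • u - (det2 u (A - B)) • v := by
      ext
      · simp only [hm, det2, Prod.fst_sub, Prod.snd_sub, Prod.smul_fst, smul_eq_mul]; ring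
      · simp only [hm, det2, Prod.fst_sub, Prod.snd_sub, Prod.smul_snd, smul_eq_mul]; ring
    have e2 : B - A = m⁻¹ • (m • (B - A)) := by rw [smul_smul, inv_mul_cancel₀ hmne, one_smul]
    rw [e2, e1, smul_sub, smul_smul, smul_smul, hs, ht, div_eq_inv_mul, div_eq_inv_mul]
  have TA : aff c u v (0, t) = A := by simp [aff, hc]
  have TC : aff c u v (1, t) = C := by simp [aff, hc, hu]
  have TB : aff c u v (s, 0) = B := by
    simp only [aff, hc, zero_smul, add_zero]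
    have : B = A + (B - A) := by abel
    rw [this, eB]; abel
  have TD : aff c u v (s, 1) = D := by
    simp only [aff, hc, one_smul]
    have : D = A + (B - A) + v := by rw [hv]; abel
    rw [this, eB]; abel
  set T := aff (ic c u v) (iu u v) (iv u v) with hT
  have memA : ((0:ℝ), t) ∈ T '' K := ⟨A, hA, by rw [← TA, hT, inv_aff hne]⟩
  have memC : ((1:ℝ), t) ∈ T '' K := ⟨C, hC, by rw [← TC, hT, inv_aff hne]⟩
  have memB : (s, (0:ℝ)) ∈ T '' K := ⟨B, hB, by rw [← TB, hT, inv_aff hne]⟩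
  have memD : (s, (1:ℝ)) ∈ T '' K := ⟨D, hD, by rw [← TD, hT, inv_aff hne]⟩
  have hmx : ∀ p1 ∈ T '' K, ∀ p2 ∈ T '' K, ∀ p3 ∈ T '' K, ∀ p4 ∈ T '' K, det2 (p3 - p1) (p4 - p2) ≤ 1 := by
    rintro _ ⟨p1, h1, rfl⟩ _ ⟨p2, h2, rfl⟩ _ ⟨p3, h3, rfl⟩ _ ⟨p4, h4, rfl⟩
    rw [hT, det2_aff, det_inv hne, one_div, inv_mul_le_iff₀ hpos, mul_one]
    exact hmax p1 h1 p2 h2 p3 h3 p4 h4
  refine ⟨ic c u v, iu u v, iv u v, s, t, ?_, ?_⟩
  · rw [det_inv hne]; positivity
  · refine ⟨convex_aff hconv, hcomp.image (continuous_aff _ _ _), ?_, memA, memB, memC, memD, hmx⟩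
    intro z hz
    have l1 := hmx z hz _ memB _ memC _ memD
    have l2 := hmx _ memA _ memB z hz _ memD
    have l3 := hmx _ memA z hz _ memC _ memD
    have l4 := hmx _ memA _ memB _ memC z hz
    simp only [det2, Prod.fst_sub, Prod.snd_sub] at l1 l2 l3 l4
    refine ⟨by linarith, by linarith, by linarith, by linarith⟩

end Pool.Agent.H948Q
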