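import Pool.Agent.H948Q.Fatou

set_option autoImplicit false

namespace Pool.Agent.H948Q

open MeasureTheory Set Filter Topology

lemma interior_nonempty {K : Set (ℝ × ℝ)} (hconv : Convex ℝ K) (hv : volume K ≠ 0) : (interior K).Nonempty := by
  by_contra h
  rw [not_nonempty_iff_eq_empty] at h
  rw [volume_interior hconv, h] at hv
  simp at hv

lemma Nrm.volume_ne_zero {K : Set (ℝ × ℝ)} {s t : ℝ} (h : Nrm K s t) : volume K ≠ 0 := by
  intro h0
  by_cases ht : t < 1
  · have h1 := measure_mono_null (tri_sub h.conv h.A h.C h.D) h0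
    rw [volume_tri] at h1
    have h2 : det2 (((1:ℝ), t) - (0, t)) ((s, 1) - (0, t)) = 1 - t := by simp [det2]
    rw [h2, abs_of_pos (by linarith), ENNReal.ofReal_eq_zero] at h1
    linarith
  · have h1 := measure_mono_null (tri_sub h.conv h.A h.B h.C) h0
    rw [volume_tri] at h1
    have h2 : det2 ((s, (0:ℝ)) - (0, t)) ((1, t) - (0, t)) = t := by simp [det2]
    rw [h2, abs_of_pos (by linarith), ENNReal.ofReal_eq_zero] at h1
    linarith

lemma mem_Icc_iff {z : ℝ × ℝ} : z ∈ Icc (0 : ℝ × ℝ) 1 ↔ 0 ≤ z.1 ∧ z.1 ≤ 1 ∧ 0 ≤ z.2 ∧ z.2 ≤ 1 := by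
  rw [mem_Icc, Prod.le_def, Prod.le_def]
  simp only [Prod.fst_zero, Prod.snd_zero, Prod.fst_one, Prod.snd_one]
  tauto

lemma volume_unit : volume (Icc (0 : ℝ × ℝ) 1) = 1 := by
  have : Icc (0 : ℝ × ℝ) 1 = Icc (0:ℝ) 1 ×ˢ Icc (0:ℝ) 1 := by
    ext z; rw [mem_Icc_iff]; simp only [mem_prod, mem_Icc]; tauto
  rw [this, Measure.volume_eq_prod, Measure.prod_prod, Real.volume_Icc]; simp

theorem uniform_compact : ∃ c : ℝ, c < √2 ∧ ∀ K : Set (ℝ × ℝ), Convex ℝ K → IsCompact K → volume K = 1 →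
    ∃ p q r s : ℝ × ℝ, K ⊆ convexHull ℝ {p, q, r, s} ∧
      volume (convexHull ℝ {p, q, r, s}) ≤ ENNReal.ofReal c := by
  by_contra hno
  push Not at hno
  have hn : ∀ n : ℕ, ∃ (K : Set (ℝ × ℝ)) (s t κ : ℝ), Nrm K s t ∧ 0 ≤ κ ∧ κ ≤ 1 ∧
      volume K = ENNReal.ofReal κ ∧ Good ((√2 - 1 / ((n:ℝ) + 1)) * κ) K := by
    intro n
    obtain ⟨K, hc, hcomp, hv, hQ⟩ := hno (√2 - 1 / ((n:ℝ) + 1)) (by
      have : 0 < 1 / ((n:ℝ) + 1) := by positivity
      linarith)
    have hg : Good (√2 - 1 / ((n:ℝ) + 1)) K := fun a b c d hs => (hQ a b c d hs).le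
    obtain ⟨c, u, v, s, t, hpos, hN⟩ := exists_nrm hc hcomp (by rw [hv]; simp)
    have hvol : volume (aff c u v '' K) = ENNReal.ofReal (det2 u v) := by
      rw [volume_aff, hv, mul_one, abs_of_pos hpos]
    refine ⟨aff c u v '' K, s, t, det2 u v, hN, hpos.le, ?_, hvol, ?_⟩
    · have h1 : volume (aff c u v '' K) ≤ volume (Icc (0 : ℝ × ℝ) 1) :=
        measure_mono (fun z hz => mem_Icc_iff.mpr (hN.sq z hz))
      rw [hvol, volume_unit, ENNReal.ofReal_le_one] at h1
      exact h1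
    · have := good_image hg (c := c) hpos.ne'
      rw [abs_of_pos hpos, mul_comm] at this
      exact this
  choose K s t κ hN h0 h1 hv hg using hn
  have hsubK : ∀ n, K n ⊆ Icc 0 1 := fun n z hz => mem_Icc_iff.mpr ((hN n).sq z hz)
  obtain ⟨L, ⟨s', t', κ'⟩, φ, hφ, hLc, hy, hlim, G1, G2, G3⟩ := limit_body K (fun n => (hN n).comp)
    (fun n => ⟨_, (hN n).A⟩) hsubK (fun n => (s n, t n, κ n)) (fun n => by
      have a1 := (hN n).sq _ (hN n).A
      have a2 := (hN n).sq _ (hN n).B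
      simp only at a1 a2
      rw [mem_Icc, Prod.le_def, Prod.le_def, Prod.le_def, Prod.le_def]
      exact ⟨⟨a2.1, a1.2.2.1, h0 n⟩, ⟨a2.2.1, a1.2.2.2, h1 n⟩⟩)
  have ls : Tendsto (fun n => s (φ n)) atTop (𝓝 s') := (continuous_fst.tendsto _).comp hlim
  have lt : Tendsto (fun n => t (φ n)) atTop (𝓝 t') :=
    ((continuous_fst.comp continuous_snd).tendsto _).comp hlim
  have lk : Tendsto (fun n => κ (φ n)) atTop (𝓝 κ') :=
    ((continuous_snd.comp continuous_snd).tendsto _).comp hlim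
  have hκ0 : 0 ≤ κ' := ge_of_tendsto lk (Eventually.of_forall fun n => h0 _)
  have hL : Nrm L s' t' := by
    refine ⟨?_, hLc, ?_, ?_, ?_, ?_, ?_, ?_⟩
    · intro z1 hz1 z2 hz2 a b ha hb hab
      obtain ⟨w1, k1, l1⟩ := G1 _ hz1
      obtain ⟨w2, k2, l2⟩ := G1 _ hz2
      exact G2 (fun n => a • w1 n + b • w2 n) _ (fun n => (hN _).conv (k1 n) (k2 n) ha hb hab)
        ((l1.const_smul a).add (l2.const_smul b))
    · intro z hz
      obtain ⟨w, k, l⟩ := G1 _ hz
      exact mem_Icc_iff.mp (isClosed_Icc.mem_of_tendsto l (Eventually.of_forall fun n => hsubK _ (k n)))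
    · exact G2 (fun n => (0, t (φ n))) _ (fun n => (hN _).A) (tendsto_const_nhds.prodMk_nhds lt)
    · exact G2 (fun n => (s (φ n), 0)) _ (fun n => (hN _).B) (ls.prodMk_nhds tendsto_const_nhds)
    · exact G2 (fun n => (1, t (φ n))) _ (fun n => (hN _).C) (tendsto_const_nhds.prodMk_nhds lt)
    · exact G2 (fun n => (s (φ n), 1)) _ (fun n => (hN _).D) (ls.prodMk_nhds tendsto_const_nhds)
    · intro p1 q1 p2 q2 p3 q3 p4 q4
      obtain ⟨w1, k1, l1⟩ := G1 _ q1
      obtain ⟨w2, k2, l2⟩ := G1 _ q2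
      obtain ⟨w3, k3, l3⟩ := G1 _ q3
      obtain ⟨w4, k4, l4⟩ := G1 _ q4
      exact le_of_tendsto (tendsto_det2 (l3.sub l1) (l4.sub l2))
        (Eventually.of_forall fun n => (hN _).max _ (k1 n) _ (k2 n) _ (k3 n) _ (k4 n))
  have hvL : volume L ≤ ENNReal.ofReal κ' :=
    volume_limit (fun n => (hN (φ n)).conv) hL.conv G1 (k := fun n => κ (φ n)) (fun n => (hv _).le) lk
  have lq : Tendsto (fun n => (√2 - 1 / ((φ n : ℝ) + 1)) * κ (φ n)) atTop (𝓝 (√2 * κ')) := by
    have l1 : Tendsto (fun n => 1 / ((φ n : ℝ) + 1)) atTop (𝓝 0) :=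
      (tendsto_one_div_add_atTop_nhds_zero_nat (𝕜 := ℝ)).comp hφ.tendsto_atTop
    have l2 := (l1.const_sub √2).mul lk
    simpa using l2
  have hgL : Good (√2 * κ') L :=
    good_limit lq (interior_nonempty hL.conv hL.volume_ne_zero) G3 (fun n => hg (φ n))
  exact hL.not_good hκ0 hvL hgL

lemma bounded_of_volume {K : Set (ℝ × ℝ)} (hconv : Convex ℝ K) (hv : volume K = 1) : Bornology.IsBounded K := by
  obtain ⟨x0, hx0⟩ := interior_nonempty hconv (by rw [hv]; simp)
  rw [mem_interior_iff_mem_nhds, Metric.mem_nhds_iff] at hx0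
  obtain ⟨δ, hδ, hball⟩ := hx0
  set d := δ / 2 with hd
  have hd0 : 0 < d := by positivity
  have mem : ∀ x y : ℝ, |x| ≤ d → |y| ≤ d → x0 + (x, y) ∈ K := by
    intro x y hx hy
    apply hball
    rw [Metric.mem_ball, dist_eq_norm]
    have : x0 + (x, y) - x0 = (x, y) := by abel
    rw [this, Prod.norm_def]
    simp only [Real.norm_eq_abs]
    exact max_lt (by linarith) (by linarith)
  have ad : |d| = d := abs_of_pos hd0
  have adn : |(-d)| = d := by rw [abs_neg, ad]
  have m1 := mem 0 d (by simp [hd0.le]) ad.le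
  have m2 := mem 0 (-d) (by simp [hd0.le]) adn.le
  have m3 := mem d 0 ad.le (by simp [hd0.le])
  have m4 := mem (-d) 0 adn.le (by simp [hd0.le])
  have hb : K ⊆ Metric.closedBall x0 (1 / d) := by
    intro z hz
    have t1 := measure_mono (μ := volume) (tri_sub hconv m2 m1 hz)
    have t2 := measure_mono (μ := volume) (tri_sub hconv m4 m3 hz)
    rw [volume_tri, hv, ENNReal.ofReal_le_one] at t1 t2
    have e1 : det2 (x0 + (0, d) - (x0 + (0, -d))) (z - (x0 + (0, -d))) = -(2 * d * (z.1 - x0.1)) := by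
      simp only [det2, Prod.fst_sub, Prod.snd_sub, Prod.fst_add, Prod.snd_add]; ring
    have e2 : det2 (x0 + (d, 0) - (x0 + (-d, 0))) (z - (x0 + (-d, 0))) = 2 * d * (z.2 - x0.2) := by
      simp only [det2, Prod.fst_sub, Prod.snd_sub, Prod.fst_add, Prod.snd_add]; ring
    rw [e1, abs_neg, abs_mul, abs_of_pos (by linarith : 0 < 2 * d)] at t1
    rw [e2, abs_mul, abs_of_pos (by linarith : 0 < 2 * d)] at t2
    rw [Metric.mem_closedBall, Prod.dist_eq, Real.dist_eq, Real.dist_eq]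
    apply max_le
    · rw [le_div_iff₀ hd0]; linarith
    · rw [le_div_iff₀ hd0]; linarith
  exact Metric.isBounded_closedBall.subset hb

theorem uniform : ∃ c : ℝ, c < √2 ∧ ∀ K : Set (ℝ × ℝ), Convex ℝ K → volume K = 1 →
    ∃ p q r s : ℝ × ℝ, K ⊆ convexHull ℝ {p, q, r, s} ∧
      volume (convexHull ℝ {p, q, r, s}) ≤ ENNReal.ofReal c := by
  obtain ⟨c, hc, h⟩ := uniform_compact
  refine ⟨c, hc, fun K hconv hv => ?_⟩
  have hcomp : IsCompact (closure K) :=
    Metric.isCompact_of_isClosed_isBounded isClosed_closure (bounded_of_volume hconv hv).closure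
  have hvc : volume (closure K) = 1 := by
    apply le_antisymm
    · calc volume (closure K) ≤ volume (interior K) + volume (frontier K) := by
            rw [closure_eq_interior_union_frontier]; exact measure_union_le _ _
        _ = volume K := by rw [hconv.addHaar_frontier volume, add_zero, ← volume_interior hconv]
        _ ≤ 1 := hv.le
    · rw [← hv]; exact measure_mono subset_closure
  obtain ⟨p, q, r, s, h1, h2⟩ := h (closure K) hconv.closure hcomp hvc
  exact ⟨p, q, r, s, subset_closure.trans h1, h2⟩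

end Pool.Agent.H948Q
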